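import Pool.Agent.TH948.MT.Tab
import Pool.Agent.W97.V20.Defs

/-!
The square of the augmentation ideal of `R[(ℤ/89)ˣ]`.
-/

set_option autoImplicit false

namespace Pool.Agent.TH948.MT

open Pool.Agent.W97.V20 (aug)
open Finset

/-- An element of the square of the augmentation ideal is killed by every homomorphism to
`ℤ/8`, extended linearly. -/
theorem aug_sq (R : Type) [CommRing R] (G : Type) [CommGroup G] [Fintype G] (L : G → ℕ)
    (hL1 : L 1 % 8 = 0) (hL : ∀ a b, L (a * b) % 8 = (L a + L b) % 8) (θ : MonoidAlgebra R G)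
    (hθ : θ ∈ aug R G ^ 2) : (8 : R) ∣ ∑ a : G, (L a : R) * θ.coeff a := by
  classical
  let A : Type := R ⧸ (Ideal.span {(8 : R)})
  have h8 : (8 : A) = 0 := by
    have : Ideal.Quotient.mk (Ideal.span {(8 : R)}) 8 = 0 :=
      Ideal.Quotient.eq_zero_iff_mem.2 (Ideal.mem_span_singleton_self 8)
    exact this
  have hmod : ∀ m n : ℕ, m % 8 = n % 8 → (m : A) = n := by
    intro m n h
    have h8' : ((8 : ℕ) : A) = 0 := by rw [Nat.cast_ofNat]; exact h8
    rw [← Nat.mod_add_div m 8, ← Nat.mod_add_div n 8, h, Nat.cast_add, Nat.cast_mul,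
      Nat.cast_add, Nat.cast_mul, h8', zero_mul, zero_mul]
  let Φ : G →* DualNumber A :=
    { toFun := fun g => 1 + (L g : A) • DualNumber.eps
      map_one' := by
        have : (L 1 : A) = 0 := by
          have := hmod (L 1) 0 (by rw [hL1])
          simpa using this
        rw [this, zero_smul, add_zero]
      map_mul' := fun a b => by
        have h1 : (L (a * b) : A) = L a + L b := by
          have := hmod _ _ (hL a b)
          rw [this]
          push_cast
          rfl
        rw [h1]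
        have h2 : (DualNumber.eps : DualNumber A) * DualNumber.eps = 0 := DualNumber.eps_mul_eps
        simp only [mul_add, add_mul, one_mul, mul_one, smul_mul_smul_comm, h2, smul_zero, add_zero,
          add_smul]
        rw [add_assoc] }
  let Ψ : MonoidAlgebra R G →ₐ[R] DualNumber A := MonoidAlgebra.lift R (DualNumber A) G Φ
  have hfst : ∀ x : MonoidAlgebra R G, TrivSqZeroExt.fst (Ψ x) =
      algebraMap R A (MonoidAlgebra.lift R R G (1 : G →* R) x) := by
    intro x
    have h1 : ((TrivSqZeroExt.fstHom R A A).comp Ψ) =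
        (Algebra.ofId R A).comp (MonoidAlgebra.lift R R G (1 : G →* R)) := by
      refine MonoidAlgebra.algHom_ext (fun g => ?_) (Subsingleton.elim _ _)
      simp only [AlgHom.comp_apply, Ψ, MonoidAlgebra.lift_single, MonoidHom.one_apply, one_smul]
      rw [map_one]
      show TrivSqZeroExt.fst (1 + (L g : A) • DualNumber.eps : DualNumber A) = 1
      simp
    exact DFunLike.congr_fun h1 x
  have hker : ∀ x ∈ aug R G, TrivSqZeroExt.fst (Ψ x) = 0 := by
    intro x hx
    rw [hfst]
    have : MonoidAlgebra.lift R R G (1 : G →* R) x = 0 := hx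
    rw [this, map_zero]
  have h1 : aug R G ^ 2 ≤ RingHom.ker (Ψ : MonoidAlgebra R G →+* DualNumber A) := by
    rw [pow_two, Ideal.mul_le]
    intro x hx y hy
    rw [RingHom.mem_ker]
    show Ψ (x * y) = 0
    rw [map_mul]
    have hx' := hker x hx
    have hy' := hker y hy
    apply TrivSqZeroExt.ext
    · rw [TrivSqZeroExt.fst_mul, hx', zero_mul]
      rfl
    · rw [TrivSqZeroExt.snd_mul, hx', hy']
      simp
  have h2 : Ψ θ = 0 := h1 hθ
  have h3 : TrivSqZeroExt.snd (Ψ θ) = ∑ a : G, (algebraMap R A (θ.coeff a)) * (L a : A) := by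
    have e1 : Ψ θ = ∑ a : G, θ.coeff a • Φ a := by
      show MonoidAlgebra.lift R (DualNumber A) G Φ θ = _
      rw [MonoidAlgebra.lift_apply]
      exact Finsupp.sum_fintype _ _ (fun i => zero_smul _ _)
    rw [e1]
    have e2 : TrivSqZeroExt.snd (∑ a : G, θ.coeff a • Φ a) =
        ∑ a : G, TrivSqZeroExt.snd (θ.coeff a • Φ a) :=
      map_sum (TrivSqZeroExt.sndHom A A) _ _
    rw [e2]
    refine sum_congr rfl fun a _ => ?_
    rw [TrivSqZeroExt.snd_smul]
    show θ.coeff a • TrivSqZeroExt.snd (1 + (L a : A) • DualNumber.eps : DualNumber A) = _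
    rw [Algebra.smul_def]
    simp
  rw [h2] at h3
  have h4 : algebraMap R A (∑ a : G, (L a : R) * θ.coeff a) = 0 := by
    rw [map_sum]
    have : ∀ a ∈ (Finset.univ : Finset G), algebraMap R A ((L a : R) * θ.coeff a) =
        (algebraMap R A (θ.coeff a)) * (L a : A) := by
      intro a _
      rw [map_mul, map_natCast, mul_comm]
    rw [sum_congr rfl this, ← h3]
    rfl
  have h5 : (∑ a : G, (L a : R) * θ.coeff a) ∈ Ideal.span {(8 : R)} :=
    Ideal.Quotient.eq_zero_iff_mem.1 h4
  exact Ideal.mem_span_singleton.1 h5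

/-- the discrete logarithm of a unit -/
def ulg (a : (ZMod 89)ˣ) : ℕ := lg (a : ZMod 89).val

lemma val_mem (a : (ZMod 89)ˣ) : (a : ZMod 89).val ∈ Finset.Icc 1 88 := by
  have h1 := ZMod.val_lt (a : ZMod 89)
  have h2 : (a : ZMod 89).val ≠ 0 := by
    intro h
    have h3 : (a : ZMod 89) = 0 := (ZMod.val_eq_zero _).1 h
    have : Fact (Nat.Prime 89) := ⟨by norm_num⟩
    exact a.ne_zero h3
  rw [Finset.mem_Icc]
  omega

lemma three_pow (a : (ZMod 89)ˣ) : (3 : ZMod 89) ^ ulg a = a := by
  have h := lg_pow _ (val_mem a)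
  have h1 : ((3 ^ lg (a : ZMod 89).val : ℕ) : ZMod 89) = (((a : ZMod 89).val : ℕ) : ZMod 89) := by
    rw [ZMod.natCast_eq_natCast_iff']
    rw [h]
    exact (Nat.mod_eq_of_lt (ZMod.val_lt _)).symm
  rw [ZMod.natCast_zmod_val] at h1
  push_cast at h1
  exact h1

lemma order3 : orderOf (3 : ZMod 89) = 88 := by
  refine orderOf_eq_of_pow_and_pow_div_prime (by norm_num) (by decide +kernel) ?_
  intro p hp hd
  have h1 : p ∈ Nat.primeFactors 88 := Nat.mem_primeFactors.2 ⟨hp, hd, by norm_num⟩
  have h2 : Nat.primeFactors 88 = {2, 11} := by decide +kernel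
  rw [h2, Finset.mem_insert, Finset.mem_singleton] at h1
  rcases h1 with rfl | rfl
  · decide +kernel
  · decide +kernel

lemma ulg_mul (a b : (ZMod 89)ˣ) : ulg (a * b) % 8 = (ulg a + ulg b) % 8 := by
  have h1 : (3 : ZMod 89) ^ ulg (a * b) = 3 ^ (ulg a + ulg b) := by
    rw [pow_add, three_pow, three_pow, three_pow]
    rfl
  have h2 : IsUnit (3 : ZMod 89) := by
    have : (3 : ZMod 89) * 30 = 1 := by decide +kernel
    exact IsUnit.of_mul_eq_one _ this
  obtain ⟨u, hu⟩ := h2
  have h3 : u ^ ulg (a * b) = u ^ (ulg a + ulg b) := by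
    apply Units.ext
    push_cast
    rw [hu]
    exact h1
  rw [pow_eq_pow_iff_modEq] at h3
  have h4 : orderOf u = 88 := by
    rw [← orderOf_units, hu, order3]
  rw [h4] at h3
  have h5 : ulg (a * b) ≡ ulg a + ulg b [MOD 8] := h3.of_dvd (by norm_num)
  exact h5

lemma ulg_one : ulg 1 % 8 = 0 := by
  have h := ulg_mul 1 1
  rw [mul_one] at h
  omega

end Pool.Agent.TH948.MT
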