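import Pool.Agent.W97.V20.Defs

/-!
Definitions for the rank part of the refined conjecture of Mazur and Tate.
-/

set_option autoImplicit false

open UpperHalfPlane

namespace Pool.Agent.TH948.MT

open Pool.Agent.W97.MT (prim IsGloballyMinimal)
open Pool.Agent.W97.V20 (fE Omega IsSplit aug)

/-- The real period `Ω⁺ = κ ∫_{E(ℝ)} |ω|`; here `Omega W = ½ ∫_{E(ℝ)} |ω|`, `ω` the differential
`dx / (2y + a_1 x + a_3)`. The problem takes `κ = 1`. -/
noncomputable def OmP (κ : ℚ) (W : WeierstrassCurve ℤ) : ℝ := κ * (2 * Omega W)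

/-- The modular symbol `[r]⁺ = (λ(r) + λ(-r)) / (2 Ω⁺)` with `λ(r) = 2πi ∫_{i∞}^{r} f_E(z) dz`. -/
noncomputable def sym (κ : ℚ) (W : WeierstrassCurve ℤ) (r : ℚ) : ℂ :=
  (prim (fE W) (r : ℂ) + prim (fE W) ((-r : ℚ) : ℂ)) / (2 * OmP κ W)

/-- `R` contains the coefficients `[a/S]⁺` of `θ_S` for every `S > 0`. -/
def IsCoeffRing (κ : ℚ) (W : WeierstrassCurve ℤ) (R : Subring ℚ) : Prop :=
  ∀ S : ℕ, 0 < S → ∀ a : (ZMod S)ˣ, ∃ q ∈ R,
    ((q : ℚ) : ℂ) = sym κ W (((a : ZMod S).val : ℚ) / S)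

/-- `θ ∈ R[G_S]` is the Mazur-Tate element `θ_S = ∑_a [a/S]⁺ σ_a`, `G_S = (ℤ/Sℤ)ˣ`. -/
def IsTheta (κ : ℚ) (W : WeierstrassCurve ℤ) (R : Subring ℚ) (S : ℕ)
    (θ : MonoidAlgebra R (ZMod S)ˣ) : Prop :=
  ∀ a : (ZMod S)ˣ, (((θ.coeff a : R) : ℚ) : ℂ) = sym κ W (((a : ZMod S).val : ℚ) / S)

open Classical in
/-- `sp(S)`: the number of the primes dividing `S` at which the curve has split multiplicative
reduction. -/
noncomputable def sp (W : WeierstrassCurve ℤ) (S : ℕ) : ℕ :=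
  (S.primeFactors.filter fun p => IsSplit W p).card

/-- The group of the rational points. -/
abbrev Pts (W : WeierstrassCurve ℤ) : Type := (W.map (Int.castRingHom ℚ)).toAffine.Point

/-- **Q1 (Mazur-Tate)**, with `Ω⁺ = κ ∫_{E(ℝ)} |ω|`: for every elliptic curve `E` over `ℚ` (given by a
global minimal equation), every subring `R` of `ℚ` containing the coefficients of all `θ_S` and every
`S > 0`, the element `θ_S` lies in the power `r_E + sp(S)` of the augmentation ideal of `R[G_S]`,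
that is in the power `k + sp(S)` for all `k ≤ r_E`. -/
def RankConjecture (κ : ℚ) : Prop :=
  ∀ W : WeierstrassCurve ℤ, IsGloballyMinimal W → ∀ R : Subring ℚ, IsCoeffRing κ W R →
    ∀ S : ℕ, 0 < S → ∀ θ : MonoidAlgebra R (ZMod S)ˣ, IsTheta κ W R S θ → ∀ k : ℕ,
      (k : Cardinal) ≤ Module.rank ℤ (Pts W) → θ ∈ aug R (ZMod S)ˣ ^ (k + sp W S)

/-- The curve given by the global minimal equation `W` has rank at least `2`, every subring of `ℚ`
contains the coefficients of all its `θ_S`, and `θ_S` is not in the square of the augmentation ideal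
of `R[G_S]` for any subring `R` of `ℚ` that does not contain `1/2`. -/
def FailsAt (κ : ℚ) (W : WeierstrassCurve ℤ) (S : ℕ) : Prop :=
  IsGloballyMinimal W ∧ 2 ≤ Module.rank ℤ (Pts W) ∧ (∀ R : Subring ℚ, IsCoeffRing κ W R) ∧
    ∀ R : Subring ℚ, (1 / 2 : ℚ) ∉ R → ∃ θ : MonoidAlgebra R (ZMod S)ˣ,
      IsTheta κ W R S θ ∧ θ ∉ aug R (ZMod S)ˣ ^ 2

/-- The curve `y² = x³ + 1958 x² + 990125 x` (conductor `2² · 5 · 89²`), the twist by `89` of
`y² = x³ + 22 x² + 125 x`. -/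
def EA : WeierstrassCurve ℤ := ⟨0, 1958, 0, 990125, 0⟩

/-- The curve `y² = x³ - 979 x² - 7921 x`, the twist by `89` of `y² = x³ - 11 x² - x`; it is
2-isogenous to `EA`. -/
def EB : WeierstrassCurve ℤ := ⟨0, -979, 0, -7921, 0⟩

end Pool.Agent.TH948.MT
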