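import Pool.Agent.W97.V20.Stm

/-!
An algorithm for the values of the modular symbol of level `20`, and the sums needed.
-/

set_option autoImplicit false

namespace Pool.Agent.TH948.MT

open Pool.Agent.W97.V20

/-- the Euclidean algorithm for the value at `a / c`, `c > 0` -/
def ev : ℕ → ℤ → ℤ → Option ℤ
  | 0, _, _ => none
  | k + 1, a, c =>
    if 2 * a > c then (ev k (a - c) c).map (fun n => -n)
    else if 2 * a < -c then (ev k (a + c) c).map (fun n => -n)
    else if a = 0 then some 1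
    else if c = 5 then
      (if a = 1 ∨ a = -1 then some 2 else if a = 2 ∨ a = -2 then some 1 else none)
    else if 0 < a then
      (if 5 * a < 2 * c then
        (if 0 < c - 5 * a then (ev k a (c - 5 * a)).map (fun n => 2 - n)
          else if 0 < 5 * a - c then (ev k (-a) (5 * a - c)).map (fun n => 2 - n) else none)
      else if 0 < 5 * a - 2 * c then (ev k (2 * a - c) (5 * a - 2 * c)).map (fun n => 1 - n)
      else none)
    else
      (if -2 * c < 5 * a then
        (if 0 < c + 5 * a then (ev k a (c + 5 * a)).map (fun n => 2 - n)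
          else if 0 < -5 * a - c then (ev k (-a) (-5 * a - c)).map (fun n => 2 - n) else none)
      else if 0 < -5 * a - 2 * c then (ev k (2 * a + c) (-5 * a - 2 * c)).map (fun n => 1 - n)
      else none)

theorem go' {P : ℚ → ℤ → Prop} {r r' : ℚ} {n n' : ℤ} (h : P r n) (hr : r = r') (hn : n = n') :
    P r' n' := by
  subst hr hn; exact h


variable {P : ℚ → ℤ → Prop}

lemma mU (h : Closed P) {a d n : ℤ} (hd : d ≠ 0) (hc : d - 5 * a ≠ 0) (hp : P ((a : ℚ) / d) n) :
    P ((a : ℚ) / ((d - 5 * a : ℤ) : ℚ)) (2 - n) := by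
  have hd' : (d : ℚ) ≠ 0 := by exact_mod_cast hd
  have hc' : ((d : ℚ) - 5 * a) ≠ 0 := by exact_mod_cast hc
  have e1 : -5 * ((a : ℚ) / d) + 1 = (d - 5 * a) / d := by field_simp; ring
  refine go' (h.U _ _ ?_ hp) ?_ rfl
  · rw [e1]; exact div_ne_zero hc' hd'
  · rw [e1]; push_cast; field_simp

lemma mUi (h : Closed P) {a d n : ℤ} (hd : d ≠ 0) (hc : d + 5 * a ≠ 0) (hp : P ((a : ℚ) / d) n) :
    P ((a : ℚ) / ((d + 5 * a : ℤ) : ℚ)) (2 - n) := by
  have hd' : (d : ℚ) ≠ 0 := by exact_mod_cast hd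
  have hc' : ((d : ℚ) + 5 * a) ≠ 0 := by exact_mod_cast hc
  have e1 : 5 * ((a : ℚ) / d) + 1 = (d + 5 * a) / d := by field_simp; ring
  refine go' (h.Ui _ _ ?_ hp) ?_ rfl
  · rw [e1]; exact div_ne_zero hc' hd'
  · rw [e1]; push_cast; field_simp

lemma mE1 (h : Closed P) {a d n : ℤ} (hd : d ≠ 0) (hc : 5 * a - 2 * d ≠ 0)
    (hp : P ((a : ℚ) / d) n) :
    P (((2 * a - d : ℤ) : ℚ) / ((5 * a - 2 * d : ℤ) : ℚ)) (1 - n) := by
  have hd' : (d : ℚ) ≠ 0 := by exact_mod_cast hd
  have hc' : (5 * (a : ℚ) - 2 * d) ≠ 0 := by exact_mod_cast hc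
  have e1 : 5 * ((a : ℚ) / d) - 2 = (5 * a - 2 * d) / d := by field_simp
  refine go' (h.e1 _ _ ?_ hp) ?_ rfl
  · rw [e1]; exact div_ne_zero hc' hd'
  · rw [e1]; push_cast; field_simp

lemma mE2 (h : Closed P) {a d n : ℤ} (hd : d ≠ 0) (hc : 5 * a + 2 * d ≠ 0)
    (hp : P ((a : ℚ) / d) n) :
    P (((-2 * a - d : ℤ) : ℚ) / ((5 * a + 2 * d : ℤ) : ℚ)) (1 - n) := by
  have hd' : (d : ℚ) ≠ 0 := by exact_mod_cast hd
  have hc' : (5 * (a : ℚ) + 2 * d) ≠ 0 := by exact_mod_cast hc
  have e1 : 5 * ((a : ℚ) / d) + 2 = (5 * a + 2 * d) / d := by field_simp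
  refine go' (h.e2 _ _ ?_ hp) ?_ rfl
  · rw [e1]; exact div_ne_zero hc' hd'
  · rw [e1]; push_cast; field_simp

lemma quo_eq {a b c d : ℤ} {e : ℤ} (he : (e : ℚ) ≠ 0) (h1 : a = e * c) (h2 : b = e * d) :
    (a : ℚ) / b = (c : ℚ) / d := by
  rw [h1, h2]
  push_cast
  exact mul_div_mul_left _ _ he

theorem ev_spec (h : Closed P) (k : ℕ) : ∀ (a c n : ℤ), 0 < c →
    ev k a c = some n → P ((a : ℚ) / c) n := by
  induction k with
  | zero => intro a c n _ h1; simp [ev] at h1
  | succ k ih =>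
    intro a c n hc h1
    have hc' : (c : ℚ) ≠ 0 := by exact_mod_cast hc.ne'
    unfold ev at h1
    split_ifs at h1 with c1 c2 c3 c5 c6 c7 c8 c9 c10 c11 c12 c13 c14 c15 c16
    · obtain ⟨m, hm, rfl⟩ := Option.map_eq_some_iff.1 h1
      refine go' (h.T _ _ (ih _ _ _ hc hm)) ?_ rfl
      push_cast; field_simp; ring
    · obtain ⟨m, hm, rfl⟩ := Option.map_eq_some_iff.1 h1
      refine go' (h.Ti _ _ (ih _ _ _ hc hm)) ?_ rfl
      push_cast; field_simp; ring
    · simp only [Option.some.injEq] at h1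
      refine go' h.zero ?_ h1
      rw [c3]; simp
    · simp only [Option.some.injEq] at h1
      rcases c6 with e | e
      · refine go' h.p1 ?_ h1
        rw [e, c5]; norm_num
      · refine go' h.m1 ?_ h1
        rw [e, c5]; norm_num
    · simp only [Option.some.injEq] at h1
      rcases c7 with e | e
      · refine go' h.p2 ?_ h1
        rw [e, c5]; norm_num
      · refine go' h.m2 ?_ h1
        rw [e, c5]; norm_num
    · obtain ⟨m, hm, rfl⟩ := Option.map_eq_some_iff.1 h1
      have h2 := ih _ _ _ (by omega) hm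
      refine go' (mUi h (by omega) (by omega) h2) ?_ rfl
      refine quo_eq (e := 1) (by norm_num) (by ring) (by ring)
    · obtain ⟨m, hm, rfl⟩ := Option.map_eq_some_iff.1 h1
      have h2 := ih _ _ _ (by omega) hm
      refine go' (mUi h (by omega) (by omega) h2) ?_ rfl
      refine quo_eq (e := -1) (by norm_num) (by ring) (by ring)
    · obtain ⟨m, hm, rfl⟩ := Option.map_eq_some_iff.1 h1
      have h2 := ih _ _ _ (by omega) hm
      refine go' (mE1 h (by omega) (by omega) h2) ?_ rfl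
      refine quo_eq (e := -1) (by norm_num) (by ring) (by ring)
    · obtain ⟨m, hm, rfl⟩ := Option.map_eq_some_iff.1 h1
      have h2 := ih _ _ _ (by omega) hm
      refine go' (mU h (by omega) (by omega) h2) ?_ rfl
      refine quo_eq (e := 1) (by norm_num) (by ring) (by ring)
    · obtain ⟨m, hm, rfl⟩ := Option.map_eq_some_iff.1 h1
      have h2 := ih _ _ _ (by omega) hm
      refine go' (mU h (by omega) (by omega) h2) ?_ rfl
      refine quo_eq (e := -1) (by norm_num) (by ring) (by ring)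
    · obtain ⟨m, hm, rfl⟩ := Option.map_eq_some_iff.1 h1
      have h2 := ih _ _ _ (by omega) hm
      refine go' (mE2 h (by omega) (by omega) h2) ?_ rfl
      refine quo_eq (e := 1) (by norm_num) (by ring) (by ring)

end Pool.Agent.TH948.MT
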