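import Pool.Agent.TH948.MT.Defs

set_option autoImplicit false

/-!
The twist by the quadratic character modulo 89
-/

namespace Pool.Agent.TH948.MT.Gauss


instance fact89 : Fact (Nat.Prime 89) := ⟨by norm_num⟩

/-- the quadratic character modulo `89` -/
noncomputable def chi : MulChar (ZMod 89) ℂ :=
  (quadraticChar (ZMod 89)).ringHomComp (Int.castRingHom ℂ)

/-- its Gauss sum -/
noncomputable def g : ℂ := gaussSum chi (ZMod.stdAddChar (N := 89))

theorem chi_nat (n : ℕ) : chi (n : ZMod 89) = ((jacobiSym n 89 : ℤ) : ℂ) := by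
  have h := jacobiSym.legendreSym.to_jacobiSym 89 (n : ℤ)
  rw [← h]
  unfold legendreSym chi
  simp

theorem chi_quad : chi.IsQuadratic := (quadraticChar_isQuadratic (ZMod 89)).comp _

theorem chi_ne : chi ≠ 1 := by
  intro h
  have h1 : chi (3 : ZMod 89) = 1 := by
    rw [h]
    exact MulChar.one_apply (by decide +kernel)
  have h2 := chi_nat 3
  have h3 : jacobiSym 3 89 = -1 := by decide +kernel
  have h4 : chi (3 : ZMod 89) = ((jacobiSym 3 89 : ℤ) : ℂ) := by exact_mod_cast h2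
  rw [h4, h3] at h1
  norm_num at h1

theorem chi_neg_one : chi (-1) = 1 := by
  have h2 := chi_nat 88
  have h3 : jacobiSym 88 89 = 1 := by decide +kernel
  have h4 : ((88 : ℕ) : ZMod 89) = -1 := by decide
  rw [h4] at h2
  rw [h2]
  exact_mod_cast h3

theorem g_sq : g ^ 2 = 89 := by
  have h := gaussSum_sq chi_ne chi_quad (ZMod.isPrimitive_stdAddChar 89)
  rw [chi_neg_one, ZMod.card] at h
  simpa [g] using h

theorem sum_zmod (F : ZMod 89 → ℂ) : ∑ a : ZMod 89, F a = ∑ u ∈ Finset.range 89, F (u : ZMod 89) := by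
  rw [Finset.sum_range]
  refine Finset.sum_congr rfl fun i _ => ?_
  congr 1
  exact (ZMod.natCast_zmod_val i).symm

theorem sum_chi (n : ℕ) :
    ∑ u ∈ Finset.range 89, ((jacobiSym u 89 : ℤ) : ℂ) *
      Complex.exp (2 * Real.pi * Complex.I * n * (u / 89)) = ((jacobiSym n 89 : ℤ) : ℂ) * g := by
  have hL : ∑ u ∈ Finset.range 89, ((jacobiSym u 89 : ℤ) : ℂ) *
      Complex.exp (2 * Real.pi * Complex.I * n * (u / 89)) =
      gaussSum chi (AddChar.mulShift (ZMod.stdAddChar (N := 89)) (n : ZMod 89)) := by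
    unfold gaussSum
    rw [sum_zmod]
    refine Finset.sum_congr rfl fun u _ => ?_
    rw [chi_nat, AddChar.mulShift_apply]
    congr 1
    have h2 : (n : ZMod 89) * (u : ZMod 89) = ((n * u : ℤ) : ZMod 89) := by
      push_cast
      rfl
    rw [h2, ZMod.stdAddChar_coe]
    congr 1
    push_cast
    ring
  rw [hL, ← chi_nat]
  by_cases hn : (n : ZMod 89) = 0
  · rw [hn, AddChar.mulShift_zero]
    unfold gaussSum
    simp only [AddChar.one_apply, mul_one]
    rw [MulChar.sum_eq_zero_of_ne_one chi_ne, MulChar.map_zero, zero_mul]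
  · have hu : IsUnit (n : ZMod 89) := isUnit_iff_ne_zero.2 hn
    obtain ⟨a, ha⟩ := hu
    rw [← ha, gaussSum_mulShift_eq, chi_quad.inv]
    rfl

theorem s_gauss : ∃ τ : ℝ, τ ^ 2 = 89 ∧ ∀ (A : ℕ → ℤ) (f : ℂ → ℂ),
  (∀ z : ℂ, 0 < z.im → HasSum (fun n : ℕ => (A n : ℂ) *
    Complex.exp (2 * Real.pi * Complex.I * n * z)) (f z)) → ∀ z : ℂ, 0 < z.im →
  HasSum (fun n : ℕ => ((jacobiSym n 89 * A n : ℤ) : ℂ) *
    Complex.exp (2 * Real.pi * Complex.I * n * z))
    ((∑ u ∈ Finset.range 89, (jacobiSym u 89 : ℂ) * f (z + u / 89)) / τ) := by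
  have hg : g ^ 2 = ((Real.sqrt 89 : ℝ) : ℂ) ^ 2 := by
    rw [g_sq, ← Complex.ofReal_pow, Real.sq_sqrt (by norm_num)]
    norm_num
  obtain ⟨τ, hτ, hgτ⟩ : ∃ τ : ℝ, τ ^ 2 = 89 ∧ g = (τ : ℂ) := by
    rcases sq_eq_sq_iff_eq_or_eq_neg.1 hg with h | h
    · exact ⟨Real.sqrt 89, Real.sq_sqrt (by norm_num), h⟩
    · refine ⟨-Real.sqrt 89, ?_, ?_⟩
      · rw [neg_sq]
        exact Real.sq_sqrt (by norm_num)
      · rw [h]
        push_cast
        rfl
  have hτ0 : (τ : ℂ) ≠ 0 := by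
    intro h
    have : τ = 0 := by exact_mod_cast h
    rw [this] at hτ
    norm_num at hτ
  refine ⟨τ, hτ, fun A f hf z hz => ?_⟩
  have h1 : HasSum (fun n : ℕ => ∑ u ∈ Finset.range 89, ((jacobiSym u 89 : ℤ) : ℂ) *
      ((A n : ℂ) * Complex.exp (2 * Real.pi * Complex.I * n * (z + u / 89))))
      (∑ u ∈ Finset.range 89, ((jacobiSym u 89 : ℤ) : ℂ) * f (z + u / 89)) := by
    refine hasSum_sum fun u _ => ?_
    refine (hf (z + u / 89) ?_).mul_left _
    have h89 : ((u : ℂ) / 89).im = 0 := by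
      have : ((u : ℂ) / 89) = (((u : ℝ) / 89 : ℝ) : ℂ) := by push_cast; rfl
      rw [this, Complex.ofReal_im]
    rw [Complex.add_im, h89, add_zero]
    exact hz
  have h2 := h1.div_const (τ : ℂ)
  suffices hfun : (fun n : ℕ => ((jacobiSym n 89 * A n : ℤ) : ℂ) *
      Complex.exp (2 * Real.pi * Complex.I * n * z)) =
      fun n : ℕ => (∑ u ∈ Finset.range 89, ((jacobiSym u 89 : ℤ) : ℂ) *
      ((A n : ℂ) * Complex.exp (2 * Real.pi * Complex.I * n * (z + u / 89)))) / (τ : ℂ) by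
    rw [hfun]
    exact h2
  funext n
  have h3 : ∑ u ∈ Finset.range 89, ((jacobiSym u 89 : ℤ) : ℂ) *
      ((A n : ℂ) * Complex.exp (2 * Real.pi * Complex.I * n * (z + u / 89))) =
      (A n : ℂ) * Complex.exp (2 * Real.pi * Complex.I * n * z) *
        (((jacobiSym n 89 : ℤ) : ℂ) * τ) := by
    rw [← hgτ, ← sum_chi n, Finset.mul_sum]
    refine Finset.sum_congr rfl fun u _ => ?_
    rw [mul_add, Complex.exp_add]
    ring
  rw [h3, Int.cast_mul]
  field_simp

end Pool.Agent.TH948.MT.Gauss
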