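import Pool.Agent.TH948.MT.Prim

/-!
Global minimality of the two curves.
-/

set_option autoImplicit false

namespace Pool.Agent.TH948.MT

open Pool.Agent.W97.MT (IsGloballyMinimal)
open WeierstrassCurve

theorem min_of {W : WeierstrassCurve ℤ} {D : ℕ} (hD0 : D ≠ 0) (hD : |W.Δ| = D)
    (h12 : ∀ d : ℕ, d ^ 12 ∣ D → d = 1) : IsGloballyMinimal W := by
  have hne : W.Δ ≠ 0 := by
    intro h
    rw [h, abs_zero] at hD
    exact hD0 (by exact_mod_cast hD.symm)
  refine ⟨hne, ?_⟩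
  intro W' C h
  have h1 := congrArg WeierstrassCurve.Δ h
  rw [WeierstrassCurve.variableChange_Δ, WeierstrassCurve.map_Δ, WeierstrassCurve.map_Δ] at h1
  set r : ℚ := ((C.u⁻¹ : ℚˣ) : ℚ) with hr
  have hr0 : r ≠ 0 := Units.ne_zero _
  have h2 : r ^ 12 * (W.Δ : ℚ) = (W'.Δ : ℚ) := h1
  have h3 : (r.num : ℚ) ^ 12 * (W.Δ : ℚ) = (W'.Δ : ℚ) * (r.den : ℚ) ^ 12 := by
    have h5 : (r.num : ℚ) = r * r.den := by
      rw [eq_comm, Rat.mul_den_eq_num]
    rw [h5, ← h2]; ring
  have h3' : r.num ^ 12 * W.Δ = W'.Δ * (r.den : ℤ) ^ 12 := by exact_mod_cast h3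
  have hcop : IsCoprime ((r.den : ℤ) ^ 12) (r.num ^ 12) := by
    apply IsCoprime.pow
    rw [Int.isCoprime_iff_gcd_eq_one, Int.gcd_comm]
    have := r.reduced
    rwa [Int.gcd, Int.natAbs_natCast]
  have hdvd : ((r.den : ℤ) ^ 12) ∣ W.Δ := by
    apply hcop.dvd_of_dvd_mul_left
    rw [h3']
    exact Dvd.intro_left _ rfl
  have hdvd' : r.den ^ 12 ∣ D := by
    have h6 : ((r.den : ℤ) ^ 12) ∣ (D : ℤ) := by
      rw [← hD]
      exact (dvd_abs _ _).2 hdvd
    have : ((r.den ^ 12 : ℕ) : ℤ) ∣ (D : ℤ) := by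
      push_cast
      exact h6
    exact Int.natCast_dvd_natCast.1 this
  have hden : r.den = 1 := h12 _ hdvd'
  rw [hden] at h3'
  have h8 : W'.Δ = r.num ^ 12 * W.Δ := by rw [h3']; simp
  rw [h8, abs_mul, abs_pow]
  have hn : 1 ≤ |r.num| := Int.one_le_abs (Rat.num_ne_zero.2 hr0)
  have h9 : (1 : ℤ) ≤ |r.num| ^ 12 := one_le_pow₀ hn
  have h10 := abs_nonneg W.Δ
  nlinarith

theorem minA : IsGloballyMinimal EA := by
  refine min_of (D := 2 ^ 8 * 5 ^ 6 * 89 ^ 6) (by norm_num) ?_ ?_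
  · rw [deltaA, abs_neg, abs_of_pos (by norm_num)]
    norm_num
  · intro d hd
    have h0 : d ≠ 0 := by
      rintro rfl
      norm_num at hd
    have hle : d ≤ 33 := by
      by_contra hc
      push Not at hc
      have h6 : 34 ^ 12 ≤ d ^ 12 := Nat.pow_le_pow_left hc 12
      have h7 := Nat.le_of_dvd (by norm_num) hd
      norm_num at h6 h7
      omega
    have hpos : 1 ≤ d := Nat.one_le_iff_ne_zero.2 h0
    clear h0
    interval_cases d
    · rfl
    all_goals norm_num at hd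

theorem minB : IsGloballyMinimal EB := by
  refine min_of (D := 2 ^ 4 * 5 ^ 3 * 89 ^ 6) (by norm_num) ?_ ?_
  · rw [deltaB, abs_of_pos (by norm_num)]
    norm_num
  · intro d hd
    have h0 : d ≠ 0 := by
      rintro rfl
      norm_num at hd
    have hle : d ≤ 33 := by
      by_contra hc
      push Not at hc
      have h6 : 34 ^ 12 ≤ d ^ 12 := Nat.pow_le_pow_left hc 12
      have h7 := Nat.le_of_dvd (by norm_num) hd
      norm_num at h6 h7
      omega
    have hpos : 1 ≤ d := Nat.one_le_iff_ne_zero.2 h0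
    clear h0
    interval_cases d
    · rfl
    all_goals norm_num at hd

end Pool.Agent.TH948.MT
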