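import Pool.Agent.TH948.MT.Rk2

/-!
The rank of the two curves is at least two.
-/

set_option autoImplicit false

namespace Pool.Agent.TH948.MT

open WeierstrassCurve Pool.Agent.H918R3

/-- a non square in the quadratic field -/
lemma nsq_quad {a r : ℚ} {z : QuadraticAlgebra ℚ a 0} (h0 : z.im = 0) (hr : z.re = r)
    (h1 : ¬ IsSquare r) (h2 : ¬ IsSquare (a * r)) : ¬ IsSquare z := by
  intro h
  rcases isq_rat h h0 hr with h3 | ⟨d, h3⟩
  · exact h1 h3
  · apply h2
    exact ⟨a * d, by rw [h3]; ring⟩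

lemma nsq_neg {r : ℚ} (h : r < 0) : ¬ IsSquare r := by
  rintro ⟨c, hc⟩
  nlinarith [mul_self_nonneg c]

lemma sq_quad {a c : ℚ} {z : QuadraticAlgebra ℚ a 0} (h0 : z.im = 0) (hr : z.re = c ^ 2) :
    IsSquare z := by
  refine ⟨⟨c, 0⟩, ?_⟩
  apply QuadraticAlgebra.ext
  · rw [QuadraticAlgebra.re_mul, hr]
    simp
    ring
  · rw [QuadraticAlgebra.im_mul, h0]
    simp

section Alg

variable {a : ℚ}

lemma two_re (n : ℤ) : ((n : ℤ) : QuadraticAlgebra ℚ a 0) = ⟨(n : ℚ), 0⟩ := rfl

end Alg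

lemma n89 : ¬ IsSquare (89 : ℕ) := by decide +kernel
lemma n445 : ¬ IsSquare (445 : ℕ) := by decide +kernel
lemma n5 : ¬ IsSquare (5 : ℕ) := by decide +kernel

section A

instance factA : Fact (∀ r : ℚ, r ^ 2 ≠ (-1) + 0 * r) := ⟨fun r h => by nlinarith [sq_nonneg r]⟩

/-- the field of the Gaussian numbers -/
abbrev KA : Type := QuadraticAlgebra ℚ (-1) 0

/-- a root -/
def e2A : KA := ⟨-979, 178⟩
/-- a root -/
def e3A : KA := ⟨-979, -178⟩

lemma algA (x : ℚ) : algebraMap ℚ KA x = ⟨x, 0⟩ := rfl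

lemma subA (x : ℚ) : algebraMap ℚ KA x - 0 = ⟨x, 0⟩ := by
  rw [sub_zero]
  rfl

lemma crvA : EA.map (algebraMap ℤ KA) = crv 0 e2A e3A := by
  apply WeierstrassCurve.ext
  · simp [EA, crv]
  · simp only [EA, crv, map_a₂, eq_intCast, two_re]
    apply QuadraticAlgebra.ext
    · simp [e2A, e3A]; norm_num
    · simp [e2A, e3A]
  · simp [EA, crv]
  · simp only [EA, crv, map_a₄, eq_intCast, two_re]
    apply QuadraticAlgebra.ext
    · simp [e2A, e3A]; norm_num
    · simp [e2A, e3A]; norm_num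
  · simp [EA, crv]

lemma crvA' : EA.map (algebraMap ℤ KA) = crv e2A 0 e3A := by
  rw [crvA]
  unfold crv
  congr 1 <;> ring

lemma two_ne_A : (2 : KA) ≠ 0 := by
  intro h
  have h2 : (2 : ℚ) = 0 := congrArg QuadraticAlgebra.re h
  norm_num at h2

lemma ne1A : (0 : KA) ≠ e2A := by
  intro h
  have := congrArg QuadraticAlgebra.im h
  simp [e2A] at this

lemma ne2A : (0 : KA) ≠ e3A := by
  intro h
  have := congrArg QuadraticAlgebra.im h
  simp [e3A] at this

lemma ne3A : e2A ≠ e3A := by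
  intro h
  have := congrArg QuadraticAlgebra.im h
  simp [e2A, e3A] at this
  norm_num at this

/-- a point -/
noncomputable def PA : Pts EA := Affine.Point.some (96921 / 100) (60904569 / 1000)
  (nsA (by norm_num) (Or.inl (by norm_num)))
/-- a point -/
noncomputable def QA : Pts EA := Affine.Point.some (958441 / 3600) (4433312411 / 216000)
  (nsA (by norm_num) (Or.inl (by norm_num)))
/-- a point -/
noncomputable def TA : Pts EA := Affine.Point.some 0 0
  (nsA (by norm_num) (Or.inr rfl))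

open Classical in
theorem rankA : (2 : Cardinal) ≤ Module.rank ℤ (Pts EA) := by
  have hδ := cl_cls (K := KA) crvA two_ne_A ne1A ne2A ne3A
  have hη := cl_cls (K := KA) crvA' two_ne_A ne1A.symm ne3A ne2A
  refine rank_two (P := PA) (Q := QA) (T := TA) hδ hη ?_ ?_ ?_ ?_ ?_ ?_
  · intro R hR
    refine two_tors rfl rfl TA ?_ R hR
    intro x y h hy
    subst hy
    have h1 := (eqnA x 0).1 h.1
    have h2 : x = 0 := by
      have h3 : x * ((x + 979) ^ 2 + 31684) = 0 := by linear_combination -h1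
      rcases mul_eq_zero.1 h3 with h4 | h4
      · exact h4
      · nlinarith [sq_nonneg (x + 979)]
    subst h2
    rfl
  · have h0 : (algebraMap ℚ KA (96921 / 100)) ≠ 0 := (map_ne_zero _).2 (by norm_num)
    rw [PA, cl_some _ h0, subA]
    refine nsq_quad (r := 96921 / 100) rfl rfl ?_ (nsq_neg (by norm_num))
    exact not_sq 89 (33 / 10) (by norm_num) (by norm_num) n89
  · rw [TA, cl_some_eq _ (by simp)]
    refine nsq_quad (r := 990125) (by simp [e2A, e3A]; norm_num) (by simp [e2A, e3A]; norm_num) ?_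
      (nsq_neg (by norm_num))
    exact not_sq 5 445 (by norm_num) (by norm_num) n5
  · have h0 : (algebraMap ℚ KA (96921 / 100)) ≠ 0 := (map_ne_zero _).2 (by norm_num)
    rw [PA, TA, cl_some _ h0, cl_some_eq _ (by simp), subA]
    refine nsq_quad (r := 96921 / 100 * 990125) (by simp [e2A, e3A]; norm_num)
      (by simp [e2A, e3A]; norm_num) ?_ (nsq_neg (by norm_num))
    exact not_sq 445 (33 / 10 * 445) (by norm_num) (by norm_num) n445
  · have h0 : (algebraMap ℚ KA (958441 / 3600)) ≠ 0 := (map_ne_zero _).2 (by norm_num)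
    rw [QA, cl_some _ h0, subA]
    exact sq_quad (c := 979 / 60) rfl (by norm_num)
  · have h0 : (algebraMap ℚ KA (958441 / 3600)) ≠ e2A := by
      rw [algA]
      intro h
      have := congrArg QuadraticAlgebra.im h
      norm_num [e2A] at this
    rw [QA, cl_some _ h0, algA]
    intro h
    obtain ⟨c, d, h1, h2⟩ := isq h
    simp [e2A] at h1 h2
    have h3 : (c ^ 2 + d ^ 2) ^ 2 = (4528409 / 3600) ^ 2 := by
      have h5 : c * d = -89 := by linarith
      have h4 : (c ^ 2 + d ^ 2) ^ 2 = (c ^ 2 - d ^ 2) ^ 2 + 4 * (c * d) ^ 2 := by ring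
      have h6 : c ^ 2 - d ^ 2 = 4482841 / 3600 := by linarith
      rw [h4, h5, h6]
      norm_num
    have h7 : c ^ 2 + d ^ 2 = 4528409 / 3600 := by
      rcases sq_eq_sq_iff_eq_or_eq_neg.1 h3 with h8 | h8
      · exact h8
      · nlinarith [sq_nonneg c, sq_nonneg d]
    apply not_sq (r := 20025 / 16) 89 (15 / 4) (by norm_num) (by norm_num) n89
    exact ⟨c, by linarith⟩

end A

section B

instance factB : Fact (∀ r : ℚ, r ^ 2 ≠ 5 + 0 * r) := ⟨fun r h =>
  not_sq (r := 5) 5 1 (by norm_num) (by norm_num) n5 ⟨r, by linarith⟩⟩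

/-- the field -/
abbrev KB : Type := QuadraticAlgebra ℚ 5 0

/-- a root -/
def e2B : KB := ⟨979 / 2, 445 / 2⟩
/-- a root -/
def e3B : KB := ⟨979 / 2, -445 / 2⟩

lemma algB (x : ℚ) : algebraMap ℚ KB x = ⟨x, 0⟩ := rfl

lemma subB (x : ℚ) : algebraMap ℚ KB x - 0 = ⟨x, 0⟩ := by
  rw [sub_zero]
  rfl

lemma crvB : EB.map (algebraMap ℤ KB) = crv 0 e2B e3B := by
  apply WeierstrassCurve.ext
  · simp [EB, crv]
  · simp only [EB, crv, map_a₂, eq_intCast, two_re]
    apply QuadraticAlgebra.ext
    · simp [e2B, e3B]; norm_num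
    · simp [e2B, e3B]; norm_num
  · simp [EB, crv]
  · simp only [EB, crv, map_a₄, eq_intCast, two_re]
    apply QuadraticAlgebra.ext
    · simp [e2B, e3B]; norm_num
    · simp [e2B, e3B]; norm_num
  · simp [EB, crv]

lemma crvB' : EB.map (algebraMap ℤ KB) = crv e2B 0 e3B := by
  rw [crvB]
  unfold crv
  congr 1 <;> ring

lemma two_ne_B : (2 : KB) ≠ 0 := by
  intro h
  have h2 : (2 : ℚ) = 0 := congrArg QuadraticAlgebra.re h
  norm_num at h2

lemma ne1B : (0 : KB) ≠ e2B := by
  intro h
  have := congrArg QuadraticAlgebra.im h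
  norm_num [e2B] at this

lemma ne2B : (0 : KB) ≠ e3B := by
  intro h
  have := congrArg QuadraticAlgebra.im h
  norm_num [e3B] at this

lemma ne3B : e2B ≠ e3B := by
  intro h
  have := congrArg QuadraticAlgebra.im h
  simp [e2B, e3B] at this
  norm_num at this

/-- a point -/
noncomputable def PB : Pts EB := Affine.Point.some (20025 / 16) (1306965 / 64)
  (nsB (by norm_num) (Or.inl (by norm_num)))
/-- a point -/
noncomputable def QB : Pts EB := Affine.Point.some (430023169 / 435600)
  (-118263753847 / 287496000) (nsB (by norm_num) (Or.inl (by norm_num)))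
/-- a point -/
noncomputable def TB : Pts EB := Affine.Point.some 0 0
  (nsB (by norm_num) (Or.inr rfl))

open Classical in
theorem rankB : (2 : Cardinal) ≤ Module.rank ℤ (Pts EB) := by
  have hδ := cl_cls (K := KB) crvB two_ne_B ne1B ne2B ne3B
  have hη := cl_cls (K := KB) crvB' two_ne_B ne1B.symm ne3B ne2B
  refine rank_two (P := PB) (Q := QB) (T := TB) hδ hη ?_ ?_ ?_ ?_ ?_ ?_
  · intro R hR
    refine two_tors rfl rfl TB ?_ R hR
    intro x y h hy
    subst hy
    have h1 := (eqnB x 0).1 h.1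
    have h2 : x = 0 := by
      have h3 : x * ((2 * x - 979) ^ 2 - 990125) = 0 := by linear_combination -4 * h1
      rcases mul_eq_zero.1 h3 with h4 | h4
      · exact h4
      · exfalso
        apply not_sq (r := 990125) 5 445 (by norm_num) (by norm_num) n5
        exact ⟨2 * x - 979, by linarith⟩
    subst h2
    rfl
  · have h0 : (algebraMap ℚ KB (20025 / 16)) ≠ 0 := (map_ne_zero _).2 (by norm_num)
    rw [PB, cl_some _ h0, subB]
    refine nsq_quad (r := 20025 / 16) rfl rfl ?_ ?_
    · exact not_sq 89 (15 / 4) (by norm_num) (by norm_num) n89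
    · exact not_sq 445 (15 / 4) (by norm_num) (by norm_num) n445
  · rw [TB, cl_some_eq _ (by simp)]
    exact nsq_quad (r := -7921) (by simp [e2B, e3B]; norm_num) (by simp [e2B, e3B]; norm_num)
      (nsq_neg (by norm_num)) (nsq_neg (by norm_num))
  · have h0 : (algebraMap ℚ KB (20025 / 16)) ≠ 0 := (map_ne_zero _).2 (by norm_num)
    rw [PB, TB, cl_some _ h0, cl_some_eq _ (by simp), subB]
    refine nsq_quad (r := 20025 / 16 * (-7921)) (by simp [e2B, e3B]; norm_num)
      (by simp [e2B, e3B]; norm_num) (nsq_neg (by norm_num)) (nsq_neg (by norm_num))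
  · have h0 : (algebraMap ℚ KB (430023169 / 435600)) ≠ 0 := (map_ne_zero _).2 (by norm_num)
    rw [QB, cl_some _ h0, subB]
    exact sq_quad (c := 20737 / 660) rfl (by norm_num)
  · have h0 : (algebraMap ℚ KB (430023169 / 435600)) ≠ e2B := by
      rw [algB]
      intro h
      have := congrArg QuadraticAlgebra.im h
      norm_num [e2B] at this
    rw [QB, cl_some _ h0, algB]
    intro h
    obtain ⟨c, d, h1, h2⟩ := isq h
    simp [e2B] at h1 h2
    have h6 : c ^ 2 + 5 * d ^ 2 = 216796969 / 435600 := by linarith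
    have h3 : (c ^ 2 - 5 * d ^ 2) ^ 2 = (5703031 / 435600) ^ 2 := by
      have h5 : c * d = -445 / 4 := by linarith
      have h4 : (c ^ 2 - 5 * d ^ 2) ^ 2 = (c ^ 2 + 5 * d ^ 2) ^ 2 - 20 * (c * d) ^ 2 := by ring
      rw [h4, h5, h6]
      norm_num
    rcases sq_eq_sq_iff_eq_or_eq_neg.1 h3 with h8 | h8
    · apply not_sq (r := 278125 / 1089) 445 (25 / 33) (by norm_num) (by norm_num) n445
      exact ⟨c, by linarith⟩
    · apply not_sq (r := 96921 / 400) 89 (33 / 20) (by norm_num) (by norm_num) n89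
      exact ⟨c, by linarith⟩

end B

end Pool.Agent.TH948.MT
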