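import Pool.Agent.TH948.MT.Sym
import Pool.Agent.TH948.MT.Om
import Pool.Agent.TH948.MT.Min
import Pool.Agent.TH948.MT.Aug
import Pool.Agent.TH948.MT.Rk3

/-!
The Mazur-Tate elements at level `89`.
-/

set_option autoImplicit false

open UpperHalfPlane

namespace Pool.Agent.TH948.MT

open Pool.Agent.W97.V20 (fE Omega IsSplit aug J0)
open Pool.Agent.W97.MT (IsGloballyMinimal)

lemma int_mem (R : Subring ℚ) (n : ℤ) : (n : ℚ) ∈ R := intCast_mem R n

lemma MM_even : ∀ a ∈ Finset.Icc 1 88, MM a % 2 = 0 := by decide +kernel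

/-- the sum over the units -/
lemma unit_sum_gen (p : ℕ) [hp : Fact p.Prime] (f : ℕ → ℤ) :
    ∑ a : (ZMod p)ˣ, f (a : ZMod p).val = ∑ n ∈ Finset.Icc 1 (p - 1), f n := by
  have hp1 := hp.out.one_lt
  refine Finset.sum_bij (fun a _ => (a : ZMod p).val) ?_ ?_ ?_ ?_
  · intro a _
    have h1 := ZMod.val_lt (a : ZMod p)
    have h2 : (a : ZMod p).val ≠ 0 := by
      intro h
      exact a.ne_zero ((ZMod.val_eq_zero _).1 h)
    rw [Finset.mem_Icc]
    omega
  · intro a _ b _ h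
    exact Units.ext (ZMod.val_injective _ h)
  · intro n hn
    rw [Finset.mem_Icc] at hn
    have hc : Nat.Coprime p n := (Nat.Prime.coprime_iff_not_dvd hp.out).2 (by
      intro h
      have := Nat.le_of_dvd (by omega) h
      omega)
    have h1 : n < p := by omega
    refine ⟨ZMod.unitOfCoprime n hc.symm, Finset.mem_univ _, ?_⟩
    rw [ZMod.coe_unitOfCoprime]
    exact ZMod.val_cast_of_lt h1
  · intro a _
    rfl

/-- the sum over the units -/
lemma unit_sum (f : ℕ → ℤ) : ∑ a : (ZMod 89)ˣ, f (a : ZMod 89).val = ∑ n ∈ Finset.Icc 1 88, f n := by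
  have : Fact (Nat.Prime 89) := ⟨by norm_num⟩
  exact unit_sum_gen 89 f

section

variable {W : WeierstrassCurve ℤ} {κ : ℚ}

theorem coeffRing (hW : Good W) (hκ : OmP κ W = 2 / Real.sqrt 89 * J0) (R : Subring ℚ) :
    IsCoeffRing κ W R := by
  obtain ⟨ε, -, hε⟩ := exists_sign'
  intro S _ a
  refine ⟨((ε * (ss (2 * (((a : ZMod S).val : ℚ) / S)) / 2) : ℤ) : ℚ), int_mem R _, ?_⟩
  rw [sym_int hW hκ hε]
  push_cast
  rfl

theorem theta_not (hW : Good W) (hκ : OmP κ W = 2 / Real.sqrt 89 * J0) (R : Subring ℚ)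
    (hR : (1 / 2 : ℚ) ∉ R) : ∃ θ : MonoidAlgebra R (ZMod 89)ˣ, IsTheta κ W R 89 θ ∧
      θ ∉ aug R (ZMod 89)ˣ ^ 2 := by
  obtain ⟨ε, hε1, hε⟩ := exists_sign'
  let c : (ZMod 89)ˣ → ℤ := fun a => ε * (ss (2 * (((a : ZMod 89).val : ℚ) / (89 : ℕ))) / 2)
  let θ : MonoidAlgebra R (ZMod 89)ˣ :=
    MonoidAlgebra.ofCoeff (Finsupp.equivFunOnFinite.symm (fun a => ((c a : ℤ) : R)))
  have hθ : ∀ a, θ.coeff a = ((c a : ℤ) : R) := fun a => rfl
  refine ⟨θ, ?_, ?_⟩
  · intro a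
    rw [hθ, sym_int hW hκ hε]
    have e1 : (((c a : ℤ) : R) : ℚ) = ((c a : ℤ) : ℚ) := rfl
    rw [e1, Rat.cast_intCast]
  · intro h
    have h1 := aug_sq R _ ulg ulg_one ulg_mul θ h
    obtain ⟨r, hr⟩ := h1
    have h2 : (∑ a : (ZMod 89)ˣ, ((ulg a : ℕ) : R) * θ.coeff a) =
        ((∑ n ∈ Finset.Icc 1 88, (lg n : ℤ) * (ε * (MM n / 2)) : ℤ) : R) := by
      rw [← unit_sum (fun n => (lg n : ℤ) * (ε * (MM n / 2)))]
      rw [Int.cast_sum]
      refine Finset.sum_congr rfl fun a _ => ?_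
      rw [hθ]
      have h3 : c a = ε * (MM (a : ZMod 89).val / 2) := by
        show ε * (ss (2 * (((a : ZMod 89).val : ℚ) / (89 : ℕ))) / 2) = _
        rw [Nat.cast_ofNat, ss_tab]
      rw [h3]
      push_cast
      rfl
    rw [h2] at hr
    set T : ℤ := ∑ n ∈ Finset.Icc 1 88, (lg n : ℤ) * (ε * (MM n / 2)) with hT
    have h4 : 2 * T = ε * ∑ n ∈ Finset.Icc 1 88, (lg n : ℤ) * MM n := by
      rw [hT, Finset.mul_sum, Finset.mul_sum]
      refine Finset.sum_congr rfl fun n hn => ?_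
      have h5 := MM_even n hn
      have h6 : MM n = 2 * (MM n / 2) := by omega
      conv_rhs => rw [h6]
      ring
    have h7 := MM_sum
    have h8 : T % 8 = 4 := by
      rcases hε1 with h9 | h9
      · rw [h9] at h4
        omega
      · rw [h9] at h4
        omega
    obtain ⟨m, hm⟩ : ∃ m : ℤ, T = 8 * m + 4 := ⟨T / 8, by omega⟩
    apply hR
    have h10 : (T : ℚ) = 8 * (r : ℚ) := by
      have h12 := congrArg (fun x : R => (x : ℚ)) hr
      have e1 : (((T : ℤ) : R) : ℚ) = ((T : ℤ) : ℚ) := rfl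
      have e2 : (((8 : R) * r : R) : ℚ) = 8 * (r : ℚ) := rfl
      rw [← e1, ← e2]
      exact h12
    have h11 : (1 / 2 : ℚ) = (r : ℚ) - (m : ℤ) := by
      rw [hm] at h10
      push_cast at h10
      linarith
    rw [h11]
    exact R.sub_mem r.2 (int_mem R m)

theorem not_conj (hW : Good W) (hmin : IsGloballyMinimal W)
    (hκ : OmP κ W = 2 / Real.sqrt 89 * J0)
    (hrk : (2 : Cardinal) ≤ Module.rank ℤ (Pts W)) : ¬ RankConjecture κ := by
  intro h
  have hR : (1 / 2 : ℚ) ∉ (Int.castRingHom ℚ).range := by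
    rintro ⟨n, hn⟩
    have h1 : (n : ℚ) = 1 / 2 := by simpa using hn
    have h2 : ((2 * n : ℤ) : ℚ) = 1 := by push_cast; rw [h1]; norm_num
    have h3 : 2 * n = 1 := by exact_mod_cast h2
    omega
  obtain ⟨θ, h1, h2⟩ := theta_not hW hκ _ hR
  have h3 := h W hmin _ (coeffRing hW hκ _) 89 (by norm_num) θ h1 2 (by exact_mod_cast hrk)
  exact h2 (Ideal.pow_le_pow_right (by omega) h3)

end

end Pool.Agent.TH948.MT
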