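import Pool.Agent.W97.V20.Stm

/-!
The parity of the values of the modular symbol of level `20`.
-/

set_option autoImplicit false

namespace Pool.Agent.TH948.MT

open Pool.Agent.W97.V20

/-- the predicate for the descent -/
structure JJ (P : ℚ → ℤ → Prop) (a c n : ℤ) : Prop where
  p : P ((a : ℚ) / (c : ℚ)) n
  i : c % 5 ≠ 0 → (n % 2 = 1 ↔ (c % 5 = 1 ∨ c % 5 = 4))
  v : c % 5 = 0 → (n % 2 = 1 ↔ (a % 5 = 2 ∨ a % 5 = 3))

variable {P : ℚ → ℤ → Prop} {a c n : ℤ}

lemma JJ_neg (h : JJ P a c n) : JJ P (-a) (-c) n := by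
  obtain ⟨h1, h2, h3⟩ := h
  refine ⟨?_, ?_, ?_⟩
  · push_cast
    rwa [neg_div_neg_eq]
  · intro h
    rw [h2 (by omega)]
    omega
  · intro h
    rw [h3 (by omega)]
    omega

lemma five_of_cop (h : IsCoprime a c) (hc : c % 5 = 0) : a % 5 ≠ 0 := by
  obtain ⟨u, v, huv⟩ := h
  intro h0
  obtain ⟨x, hx⟩ := Int.dvd_of_emod_eq_zero h0
  obtain ⟨y, hy⟩ := Int.dvd_of_emod_eq_zero hc
  rw [hx, hy] at huv
  have : 5 * (u * x + v * y) = 1 := by linarith
  omega

lemma JJ_T (hP : Closed P) (hc : c ≠ 0) (h : JJ P a c n) : JJ P (a + c) c (-n) := by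
  obtain ⟨h1, h2, h3⟩ := h
  have hq : (c : ℚ) ≠ 0 := by exact_mod_cast hc
  refine ⟨?_, ?_, ?_⟩
  · have := hP.T _ _ h1
    have e : ((a + c : ℤ) : ℚ) / (c : ℚ) = (a : ℚ) / c + 1 := by
      push_cast
      field_simp
    rw [e]
    exact this
  · intro h
    rw [← h2 h]
    omega
  · intro h
    have := h3 h
    have e : (a + c) % 5 = a % 5 := by omega
    rw [e, ← this]
    omega

lemma JJ_Ti (hP : Closed P) (hc : c ≠ 0) (h : JJ P a c n) : JJ P (a - c) c (-n) := by
  obtain ⟨h1, h2, h3⟩ := h
  have hq : (c : ℚ) ≠ 0 := by exact_mod_cast hc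
  refine ⟨?_, ?_, ?_⟩
  · have := hP.Ti _ _ h1
    have e : ((a - c : ℤ) : ℚ) / (c : ℚ) = (a : ℚ) / c - 1 := by
      push_cast
      field_simp
    rw [e]
    exact this
  · intro h
    rw [← h2 h]
    omega
  · intro h
    have := h3 h
    have e : (a - c) % 5 = a % 5 := by omega
    rw [e, ← this]
    omega

lemma JJ_U (hP : Closed P) (hc : c ≠ 0) (hc' : c - 5 * a ≠ 0)
    (h : JJ P a c n) : JJ P a (c - 5 * a) (2 - n) := by
  obtain ⟨h1, h2, h3⟩ := h
  have hq : (c : ℚ) ≠ 0 := by exact_mod_cast hc
  have hq' : (c : ℚ) - 5 * a ≠ 0 := by exact_mod_cast hc'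
  refine ⟨?_, ?_, ?_⟩
  · have hne : -5 * ((a : ℚ) / c) + 1 ≠ 0 := by
      have : -5 * ((a : ℚ) / c) + 1 = ((c : ℚ) - 5 * a) / c := by field_simp; ring
      rw [this]
      exact div_ne_zero hq' hq
    have := hP.U _ _ hne h1
    have e : (a : ℚ) / ((c - 5 * a : ℤ) : ℚ) = (a : ℚ) / c / (-5 * ((a : ℚ) / c) + 1) := by
      push_cast
      have : -5 * ((a : ℚ) / c) + 1 = ((c : ℚ) - 5 * a) / c := by field_simp; ring
      rw [this]
      field_simp
    rw [e]
    exact this
  · intro h
    have := h2 (by omega)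
    omega
  · intro h
    have := h3 (by omega)
    omega

lemma JJ_Ui (hP : Closed P) (hc : c ≠ 0) (hc' : c + 5 * a ≠ 0)
    (h : JJ P a c n) : JJ P a (c + 5 * a) (2 - n) := by
  obtain ⟨h1, h2, h3⟩ := h
  have hq : (c : ℚ) ≠ 0 := by exact_mod_cast hc
  have hq' : (c : ℚ) + 5 * a ≠ 0 := by exact_mod_cast hc'
  refine ⟨?_, ?_, ?_⟩
  · have e2 : 5 * ((a : ℚ) / c) + 1 = ((c : ℚ) + 5 * a) / c := by field_simp; ring
    have hne : 5 * ((a : ℚ) / c) + 1 ≠ 0 := by
      rw [e2]
      exact div_ne_zero hq' hq
    have := hP.Ui _ _ hne h1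
    have e : (a : ℚ) / ((c + 5 * a : ℤ) : ℚ) = (a : ℚ) / c / (5 * ((a : ℚ) / c) + 1) := by
      push_cast
      rw [e2]
      field_simp
    rw [e]
    exact this
  · intro h
    have := h2 (by omega)
    omega
  · intro h
    have := h3 (by omega)
    omega

lemma JJ_e1 (hP : Closed P) (hc : c ≠ 0) (hc' : 5 * a - 2 * c ≠ 0) (hco : IsCoprime a c)
    (h : JJ P a c n) : JJ P (2 * a - c) (5 * a - 2 * c) (1 - n) := by
  have h5' := five_of_cop hco
  obtain ⟨h1, h2, h3⟩ := h
  have hq : (c : ℚ) ≠ 0 := by exact_mod_cast hc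
  have hq' : 5 * (a : ℚ) - 2 * c ≠ 0 := by exact_mod_cast hc'
  refine ⟨?_, ?_, ?_⟩
  · have e2 : 5 * ((a : ℚ) / c) - 2 = (5 * (a : ℚ) - 2 * c) / c := by field_simp
    have hne : 5 * ((a : ℚ) / c) - 2 ≠ 0 := by
      rw [e2]
      exact div_ne_zero hq' hq
    have := hP.e1 _ _ hne h1
    have e : ((2 * a - c : ℤ) : ℚ) / ((5 * a - 2 * c : ℤ) : ℚ) =
        (2 * ((a : ℚ) / c) - 1) / (5 * ((a : ℚ) / c) - 2) := by
      push_cast
      rw [e2]
      field_simp
    rw [e]
    exact this
  · intro h
    have h7 := h2 (by omega)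
    have h6 : c % 5 = 1 ∨ c % 5 = 2 ∨ c % 5 = 3 ∨ c % 5 = 4 := by omega
    rcases h6 with h6 | h6 | h6 | h6 <;> rw [h6] at h7 <;>
      rcases Int.emod_two_eq n with h8 | h8 <;> rw [h8] at h7 <;> norm_num at h7 <;> omega
  · intro h
    have h9 : c % 5 = 0 := by omega
    have h7 := h3 h9
    have h10 := h5' h9
    have h6 : a % 5 = 1 ∨ a % 5 = 2 ∨ a % 5 = 3 ∨ a % 5 = 4 := by omega
    rcases h6 with h6 | h6 | h6 | h6 <;> rw [h6] at h7 <;>
      rcases Int.emod_two_eq n with h8 | h8 <;> rw [h8] at h7 <;> norm_num at h7 <;> omega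

lemma JJ_e2 (hP : Closed P) (hc : c ≠ 0) (hc' : 5 * a + 2 * c ≠ 0) (hco : IsCoprime a c)
    (h : JJ P a c n) : JJ P (-2 * a - c) (5 * a + 2 * c) (1 - n) := by
  have h5' := five_of_cop hco
  obtain ⟨h1, h2, h3⟩ := h
  have hq : (c : ℚ) ≠ 0 := by exact_mod_cast hc
  have hq' : 5 * (a : ℚ) + 2 * c ≠ 0 := by exact_mod_cast hc'
  refine ⟨?_, ?_, ?_⟩
  · have e2 : 5 * ((a : ℚ) / c) + 2 = (5 * (a : ℚ) + 2 * c) / c := by field_simp
    have hne : 5 * ((a : ℚ) / c) + 2 ≠ 0 := by
      rw [e2]
      exact div_ne_zero hq' hq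
    have := hP.e2 _ _ hne h1
    have e : ((-2 * a - c : ℤ) : ℚ) / ((5 * a + 2 * c : ℤ) : ℚ) =
        (-2 * ((a : ℚ) / c) - 1) / (5 * ((a : ℚ) / c) + 2) := by
      push_cast
      rw [e2]
      field_simp
    rw [e]
    exact this
  · intro h
    have h7 := h2 (by omega)
    have h6 : c % 5 = 1 ∨ c % 5 = 2 ∨ c % 5 = 3 ∨ c % 5 = 4 := by omega
    rcases h6 with h6 | h6 | h6 | h6 <;> rw [h6] at h7 <;>
      rcases Int.emod_two_eq n with h8 | h8 <;> rw [h8] at h7 <;> norm_num at h7 <;> omega
  · intro h
    have h9 : c % 5 = 0 := by omega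
    have h7 := h3 h9
    have h10 := h5' h9
    have h6 : a % 5 = 1 ∨ a % 5 = 2 ∨ a % 5 = 3 ∨ a % 5 = 4 := by omega
    rcases h6 with h6 | h6 | h6 | h6 <;> rw [h6] at h7 <;>
      rcases Int.emod_two_eq n with h8 | h8 <;> rw [h8] at h7 <;> norm_num at h7 <;> omega

lemma JJ_shift (hP : Closed P) (hc : c ≠ 0) (k : ℤ) :
    (∃ n, JJ P a c n) → ∃ n, JJ P (a + k * c) c n := by
  intro h
  induction k using Int.induction_on with
  | zero => simpa using h
  | succ i ih =>
    obtain ⟨n, hn⟩ := ih
    refine ⟨-n, ?_⟩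
    have := JJ_T hP hc hn
    convert this using 1
    ring
  | pred i ih =>
    obtain ⟨n, hn⟩ := ih
    refine ⟨-n, ?_⟩
    have := JJ_Ti hP hc hn
    convert this using 1
    ring

lemma main (hP : Closed P) (N : ℕ) : ∀ a c : ℤ, c ≠ 0 → c.natAbs = N → IsCoprime a c →
    ∃ n, JJ P a c n := by
  induction N using Nat.strong_induction_on with
  | _ N ih =>
    -- reduced fractions
    have red : ∀ a c : ℤ, 0 < c → c.natAbs = N → IsCoprime a c → -c < 2 * a → 2 * a ≤ c →
        ∃ n, JJ P a c n := by
      intro a c hc hN hco hl hu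
      rcases lt_trichotomy (5 * a) 0 with h | h | h
      · rcases lt_trichotomy (5 * a) (-2 * c) with h' | h' | h'
        · -- e2
          have hc' : 5 * a + 2 * c ≠ 0 := by omega
          have hco' : IsCoprime (-2 * a - c) (5 * a + 2 * c) := by
            obtain ⟨u, v, huv⟩ := hco
            refine ⟨2 * u - 5 * v, u - 2 * v, ?_⟩
            linear_combination huv
          obtain ⟨n, hn⟩ := ih (5 * a + 2 * c).natAbs (by omega) (-2 * a - c) (5 * a + 2 * c) hc' rfl
            hco'
          have h1 := JJ_e2 hP hc' (by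
            have : 5 * (-2 * a - c) + 2 * (5 * a + 2 * c) = -c := by ring
            rw [this]
            omega) hco' hn
          have h2 := JJ_neg h1
          refine ⟨1 - n, ?_⟩
          convert h2 using 1 <;> ring
        · -- a = -2, c = 5
          have h1 : a ∣ 2 := by
            have h2 : a ∣ 2 * c := ⟨-5, by linarith⟩
            exact hco.dvd_of_dvd_mul_right h2
          have h3 : a = -2 := by
            have h4 := Int.le_of_dvd (by norm_num) ((neg_dvd).2 h1)
            have h5 : a = -1 ∨ a = -2 := by omega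
            omega
          have h6 : c = 5 := by omega
          subst h3 h6
          refine ⟨1, ?_, ?_, ?_⟩
          · have := hP.m2
            convert this using 2 <;> norm_num
          all_goals norm_num
        · by_cases hz : c + 5 * a = 0
          · have h1 : a ∣ 1 := by
              have h2 : a ∣ 1 * c := ⟨-5, by linarith⟩
              exact hco.dvd_of_dvd_mul_right h2
            have h3 : a = -1 := by
              have h4 := Int.le_of_dvd (by norm_num) ((neg_dvd).2 h1)
              omega
            have h6 : c = 5 := by omega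
            subst h3 h6
            refine ⟨2, ?_, ?_, ?_⟩
            · have := hP.m1
              convert this using 2 <;> norm_num
            all_goals norm_num
          · have hco' : IsCoprime a (c + 5 * a) := by
              have e0 : c + 5 * a = c + a * 5 := by ring
              rw [e0]
              exact hco.add_mul_left_right 5
            obtain ⟨n, hn⟩ := ih (c + 5 * a).natAbs (by omega) a (c + 5 * a) hz rfl hco'
            have e : c + 5 * a - 5 * a = c := by ring
            have h1 := JJ_U hP hz (by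
              rw [e]
              omega) hn
            rw [e] at h1
            exact ⟨2 - n, h1⟩
      · have ha : a = 0 := by omega
        subst ha
        have h1 : c = 1 := by
          have h2 : IsUnit c := isCoprime_zero_left.1 hco
          rcases Int.isUnit_iff.1 h2 with h3 | h3
          · exact h3
          · omega
        subst h1
        refine ⟨1, ?_, ?_, ?_⟩
        · have := hP.zero
          convert this using 2
          norm_num
        all_goals norm_num
      · rcases lt_trichotomy (5 * a) (2 * c) with h' | h' | h'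
        · by_cases hz : c - 5 * a = 0
          · have h1 : a ∣ 1 := by
              have h2 : a ∣ 1 * c := ⟨5, by linarith⟩
              exact hco.dvd_of_dvd_mul_right h2
            have h3 : a = 1 := by
              have h4 := Int.le_of_dvd (by norm_num) h1
              omega
            have h6 : c = 5 := by omega
            subst h3 h6
            refine ⟨2, ?_, ?_, ?_⟩
            · have := hP.p1
              convert this using 2 <;> norm_num
            all_goals norm_num
          · have hco' : IsCoprime a (c - 5 * a) := by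
              have e0 : c - 5 * a = c + a * (-5) := by ring
              rw [e0]
              exact hco.add_mul_left_right (-5)
            obtain ⟨n, hn⟩ := ih (c - 5 * a).natAbs (by omega) a (c - 5 * a) hz rfl hco'
            have e : c - 5 * a + 5 * a = c := by ring
            have h1 := JJ_Ui hP hz (by
              rw [e]
              omega) hn
            rw [e] at h1
            exact ⟨2 - n, h1⟩
        · have h1 : a ∣ 2 := by
            have h2 : a ∣ 2 * c := ⟨5, by linarith⟩
            exact hco.dvd_of_dvd_mul_right h2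
          have h3 : a = 2 := by
            have h4 := Int.le_of_dvd (by norm_num) h1
            have h5 : a = 1 ∨ a = 2 := by omega
            omega
          have h6 : c = 5 := by omega
          subst h3 h6
          refine ⟨1, ?_, ?_, ?_⟩
          · have := hP.p2
            convert this using 2 <;> norm_num
          all_goals norm_num
        · have hc' : 5 * a - 2 * c ≠ 0 := by omega
          have hco' : IsCoprime (2 * a - c) (5 * a - 2 * c) := by
            obtain ⟨u, v, huv⟩ := hco
            refine ⟨-2 * u - 5 * v, u + 2 * v, ?_⟩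
            linear_combination huv
          obtain ⟨n, hn⟩ := ih (5 * a - 2 * c).natAbs (by omega) (2 * a - c) (5 * a - 2 * c) hc' rfl
            hco'
          have h1 := JJ_e1 hP hc' (by
            have : 5 * (2 * a - c) - 2 * (5 * a - 2 * c) = -c := by ring
            rw [this]
            omega) hco' hn
          have h2 := JJ_neg h1
          refine ⟨1 - n, ?_⟩
          convert h2 using 1 <;> ring
    have pos : ∀ a c : ℤ, 0 < c → c.natAbs = N → IsCoprime a c → ∃ n, JJ P a c n := by
      intro a c hc hN hco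
      -- shift
      obtain ⟨q, a', ha, hl, hu⟩ : ∃ q a' : ℤ, a = a' + q * c ∧ -c < 2 * a' ∧ 2 * a' ≤ c := by
        have h1 := Int.emod_add_mul_ediv a c
        have h2 := Int.emod_nonneg a hc.ne'
        have h3 := Int.emod_lt_of_pos a hc
        by_cases h4 : 2 * (a % c) ≤ c
        · exact ⟨a / c, a % c, by linarith, by omega, h4⟩
        · refine ⟨a / c + 1, a % c - c, by linarith, by omega, by omega⟩
      have hco' : IsCoprime a' c := by
        have h5 := hco.add_mul_right_left (-q)
        have e : a + -q * c = a' := by rw [ha]; ring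
        rwa [e] at h5
      have h1 := red a' c hc hN hco' hl hu
      have h2 := JJ_shift hP hc.ne' q h1
      rw [← ha] at h2
      exact h2
    intro a c hc hN hco
    rcases lt_or_gt_of_ne hc with h | h
    · obtain ⟨n, hn⟩ := pos (-a) (-c) (by omega) (by omega) hco.neg_neg
      have := JJ_neg hn
      rw [neg_neg, neg_neg] at this
      exact ⟨n, this⟩
    · exact pos a c h hN hco

/-- the parity of the values -/
theorem desc5 (hP : Closed P) (r : ℚ) : ∃ n, JJ P r.num r.den n :=
  main hP _ r.num r.den (by exact_mod_cast r.den_nz) rfl (Rat.isCoprime_num_den r)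

end Pool.Agent.TH948.MT
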