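import Pool.Agent.TH948.MT.Defs
import Pool.Agent.W417.V20.TWIST

/-!
The point counts of 2-isogenous curves and of the quadratic twists by 89.
-/

set_option autoImplicit false

namespace Pool.Agent.TH948.MT

open Pool.Agent.W97.V20
open Pool.Agent.W97.MT (affCount ap)
open Pool.Agent.W417.V20.TWIST (ap_eq affCount_eq e4_two)
open Finset

section iso

variable {p : ℕ} [Fact p.Prime]

lemma rc (hp : p ≠ 2) : ringChar (ZMod p) ≠ 2 := by
  rw [ZMod.ringChar_zmod_n]
  exact hp

lemma two_ne (hp : p ≠ 2) : (2 : ZMod p) ≠ 0 := by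
  intro h
  have h1 : ((2 : ℕ) : ZMod p) = 0 := by exact_mod_cast h
  rw [ZMod.natCast_eq_zero_iff] at h1
  exact hp ((Nat.prime_dvd_prime_iff_eq (Fact.out : p.Prime) Nat.prime_two).1 h1)

/-- the number of the roots of `x² - t x + b` -/
lemma card_roots (hp : p ≠ 2) (t b : ZMod p) :
    (((univ.filter fun x : ZMod p => x ^ 2 - t * x + b = 0).card : ℕ) : ℤ) =
      quadraticChar (ZMod p) (t ^ 2 - 4 * b) + 1 := by
  classical
  have h2 := two_ne hp
  rw [← quadraticChar_card_sqrts (rc hp)]
  congr 1
  refine card_bij (fun x _ => 2 * x - t) ?_ ?_ ?_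
  · intro x hx
    rw [mem_filter] at hx
    rw [Set.mem_toFinset]
    show (2 * x - t) ^ 2 = t ^ 2 - 4 * b
    linear_combination 4 * hx.2
  · intro x _ y _ h
    have h1 : 2 * (x - y) = 0 := by linear_combination h
    rcases mul_eq_zero.1 h1 with h3 | h3
    · exact absurd h3 h2
    · exact sub_eq_zero.1 h3
  · intro y hy
    rw [Set.mem_toFinset] at hy
    have hy' : y ^ 2 = t ^ 2 - 4 * b := hy
    refine ⟨(y + t) / 2, ?_, ?_⟩
    · rw [mem_filter]
      refine ⟨mem_univ _, ?_⟩
      have h4 : (4 : ZMod p) ≠ 0 := by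
        have : (4 : ZMod p) = 2 * 2 := by norm_num
        rw [this]
        exact mul_ne_zero h2 h2
      have : 4 * (((y + t) / 2) ^ 2 - t * ((y + t) / 2) + b) = 0 := by
        field_simp
        linear_combination 4 * hy'
      rcases mul_eq_zero.1 this with h | h
      · exact absurd h h4
      · exact h
    · field_simp
      ring

/-- The character sums of 2-isogenous curves agree. -/
theorem iso_sum (hp : p ≠ 2) (a b : ZMod p) :
    ∑ x : ZMod p, quadraticChar (ZMod p) (x ^ 3 + a * x ^ 2 + b * x) =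
      ∑ x : ZMod p, quadraticChar (ZMod p) (x ^ 3 + (-2 * a) * x ^ 2 + (a ^ 2 - 4 * b) * x) := by
  classical
  have hz : ∑ t : ZMod p, quadraticChar (ZMod p) (t + a) = 0 := by
    rw [← quadraticChar_sum_zero (rc hp)]
    exact Fintype.sum_equiv (Equiv.addRight a) _ _ fun t => rfl
  have h1 : ∀ x : ZMod p, quadraticChar (ZMod p) (x ^ 3 + a * x ^ 2 + b * x) =
      ∑ t : ZMod p, if x ^ 2 - t * x + b = 0 then quadraticChar (ZMod p) (t + a) else 0 := by
    intro x
    by_cases hx : x = 0
    · subst hx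
      have e0 : (0 : ZMod p) ^ 3 + a * 0 ^ 2 + b * 0 = 0 := by ring
      rw [e0, MulChar.map_zero]
      by_cases hb : b = 0
      · subst hb
        simp only [ne_eq, OfNat.ofNat_ne_zero, not_false_eq_true, zero_pow, mul_zero, sub_zero,
          add_zero, if_true]
        exact hz.symm
      · symm
        refine sum_eq_zero fun t _ => ?_
        rw [if_neg]
        intro h
        apply hb
        linear_combination h
    · have h2 : ∀ t : ZMod p, (x ^ 2 - t * x + b = 0) ↔ t = x + b / x := by
        intro t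
        constructor
        · intro h
          field_simp
          linear_combination -h
        · intro h
          rw [h]
          field_simp
          ring
      simp only [h2]
      rw [sum_ite_eq' univ (x + b / x) (fun t => quadraticChar (ZMod p) (t + a)),
        if_pos (mem_univ _)]
      have h3 : x ^ 3 + a * x ^ 2 + b * x = x ^ 2 * (x + b / x + a) := by
        field_simp
        ring
      rw [h3, map_mul, quadraticChar_sq_one' hx, one_mul]
  simp only [h1]
  rw [sum_comm]
  have h4 : ∀ t : ZMod p, (∑ x : ZMod p, if x ^ 2 - t * x + b = 0 then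
      quadraticChar (ZMod p) (t + a) else 0) =
      quadraticChar (ZMod p) (t + a) + quadraticChar (ZMod p) ((t + a) * (t ^ 2 - 4 * b)) := by
    intro t
    rw [← sum_filter, sum_const, nsmul_eq_mul, card_roots hp, map_mul]
    ring
  simp only [h4]
  rw [sum_add_distrib, hz, zero_add]
  refine Fintype.sum_equiv (Equiv.addRight a) _ _ fun t => ?_
  congr 1
  simp only [Equiv.coe_addRight]
  ring

end iso

theorem ea_two : ap EA 2 = 0 := by
  unfold ap EA
  rw [affCount_eq]
  have : Fintype.card {P : ZMod 2 × ZMod 2 // P.2 ^ 2 = P.1 ^ 3 + ((1958 : ℤ) : ZMod 2) *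
      P.1 ^ 2 + ((990125 : ℤ) : ZMod 2) * P.1} = 2 := by decide
  rw [this]
  norm_num

theorem eb_two : ap EB 2 = 0 := by
  unfold ap EB
  rw [affCount_eq]
  have : Fintype.card {P : ZMod 2 × ZMod 2 // P.2 ^ 2 = P.1 ^ 3 + ((-979 : ℤ) : ZMod 2) *
      P.1 ^ 2 + ((-7921 : ℤ) : ZMod 2) * P.1} = 2 := by decide
  rw [this]
  norm_num

/-- the two curves have the same coefficients -/
theorem ea_eb {p : ℕ} (hp : p.Prime) : ap EA p = ap EB p := by
  have : Fact p.Prime := ⟨hp⟩
  by_cases h2 : p = 2
  · subst h2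
    rw [ea_two, eb_two]
  unfold EA EB
  rw [ap_eq _ _ p h2, ap_eq _ _ p h2, iso_sum h2 (((-979 : ℤ) : ZMod p)) (((-7921 : ℤ) : ZMod p))]
  congr 1
  refine sum_congr rfl fun x _ => ?_
  congr 1
  push_cast
  ring

instance fact89 : Fact (Nat.Prime 89) := ⟨by norm_num⟩

theorem m979 : ((-979 : ℤ) : ZMod 89) = 0 := by decide +kernel

theorem m7921 : ((-7921 : ℤ) : ZMod 89) = 0 := by decide +kernel

/-- the twist -/
theorem twistB {p : ℕ} (hp : p.Prime) : ap EB p = jacobiSym p 89 * ap E4 p := by
  have : Fact p.Prime := ⟨hp⟩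
  by_cases h2 : p = 2
  · subst h2
    rw [eb_two, e4_two, mul_zero]
  by_cases h89 : p = 89
  · subst h89
    have h3 : jacobiSym ((89 : ℕ) : ℤ) 89 = 0 := by norm_num
    rw [h3, zero_mul]
    unfold EB
    rw [ap_eq _ _ 89 (by norm_num), neg_eq_zero]
    rw [← quadraticChar_sum_zero (rc (p := 89) (by norm_num))]
    refine sum_congr rfl fun x _ => ?_
    rw [m979, m7921, zero_mul, zero_mul, add_zero, add_zero, map_pow]
    by_cases hx : x = 0
    · subst hx
      simp
    · rw [pow_succ, quadraticChar_sq_one hx, one_mul]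
  have h89' : (89 : ZMod p) ≠ 0 := by
    intro h
    have h1 : ((89 : ℕ) : ZMod p) = 0 := by exact_mod_cast h
    rw [ZMod.natCast_eq_zero_iff] at h1
    exact h89 ((Nat.prime_dvd_prime_iff_eq hp (by norm_num)).1 h1)
  have h3 : ap EB p = quadraticChar (ZMod p) 89 * ap E4 p := by
    unfold EB E4
    rw [ap_eq _ _ p h2, ap_eq _ _ p h2, mul_neg, mul_sum]
    congr 1
    symm
    refine Fintype.sum_equiv (Equiv.mulLeft₀ (89 : ZMod p) h89') _ _ fun x => ?_
    have h4 : quadraticChar (ZMod p) 89 = quadraticChar (ZMod p) (89 ^ 3) := by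
      rw [pow_succ, map_mul, quadraticChar_sq_one' h89', one_mul]
    rw [h4, ← map_mul, Equiv.mulLeft₀_apply]
    congr 1
    push_cast
    ring
  rw [h3]
  congr 1
  have h5 : quadraticChar (ZMod p) 89 = legendreSym p 89 := by
    rw [legendreSym]
    norm_num
  have hodd : Odd p := hp.odd_of_ne_two h2
  rw [h5, jacobiSym.legendreSym.to_jacobiSym]
  exact jacobiSym.quadratic_reciprocity_one_mod_four (a := 89) (by norm_num) hodd

theorem twistA {p : ℕ} (hp : p.Prime) : ap EA p = jacobiSym p 89 * ap E4 p := by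
  rw [ea_eb hp, twistB hp]

end Pool.Agent.TH948.MT
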