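import Pool.Agent.W97.V20.Fin
import Pool.Agent.TH948.MT.Tw
import Pool.Agent.TH948.MT.Gauss

/-!
The coefficients of the twists by `89` and the integrals.
-/

set_option autoImplicit false

open UpperHalfPlane MatrixGroups CongruenceSubgroup Filter Topology MeasureTheory
open scoped ModularForm Pointwise

namespace Pool.Agent.TH948.MT

open Pool.Agent.W97.V20
open Pool.Agent.W97.MT (ap prim qq)

/-- the two properties of the curves that determine the form -/
structure Good (W : WeierstrassCurve ℤ) : Prop where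
  disc : ∀ p : ℕ, p.Prime → ((p : ℤ) ∣ W.Δ ↔ p = 2 ∨ p = 5 ∨ p = 89)
  tw : ∀ p : ℕ, p.Prime → ap W p = jacobiSym p 89 * ap E4 p

lemma deltaA : EA.Δ = -(2 ^ 8 * 5 ^ 6 * 89 ^ 6) := by
  simp [WeierstrassCurve.Δ, WeierstrassCurve.b₂, WeierstrassCurve.b₄, WeierstrassCurve.b₆,
    WeierstrassCurve.b₈, EA]

lemma deltaB : EB.Δ = 2 ^ 4 * 5 ^ 3 * 89 ^ 6 := by
  simp [WeierstrassCurve.Δ, WeierstrassCurve.b₂, WeierstrassCurve.b₄, WeierstrassCurve.b₆,
    WeierstrassCurve.b₈, EB]

lemma dvd_of {p a b c : ℕ} (hp : p.Prime) (ha : a ≠ 0) (hb : b ≠ 0) (hc : c ≠ 0) :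
    p ∣ 2 ^ a * 5 ^ b * 89 ^ c ↔ p = 2 ∨ p = 5 ∨ p = 89 := by
  constructor
  · intro h2
    rcases (Nat.Prime.dvd_mul hp).1 h2 with h3 | h3
    · rcases (Nat.Prime.dvd_mul hp).1 h3 with h4 | h4
      · exact Or.inl ((Nat.prime_dvd_prime_iff_eq hp Nat.prime_two).1 (hp.dvd_of_dvd_pow h4))
      · exact Or.inr (Or.inl ((Nat.prime_dvd_prime_iff_eq hp (by norm_num)).1
          (hp.dvd_of_dvd_pow h4)))
    · exact Or.inr (Or.inr ((Nat.prime_dvd_prime_iff_eq hp (by norm_num)).1
        (hp.dvd_of_dvd_pow h3)))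
  · rintro (rfl | rfl | rfl)
    · exact ((dvd_pow_self 2 ha).mul_right _).mul_right _
    · exact ((dvd_pow_self 5 hb).mul_left _).mul_right _
    · exact (dvd_pow_self 89 hc).mul_left _

theorem goodA : Good EA := by
  refine ⟨fun p hp => ?_, fun p hp => twistA hp⟩
  rw [deltaA, dvd_neg, ← dvd_of (a := 8) (b := 6) (c := 6) hp (by norm_num) (by norm_num)
    (by norm_num)]
  constructor
  · intro h; exact_mod_cast h
  · intro h; exact_mod_cast h

theorem goodB : Good EB := by
  refine ⟨fun p hp => ?_, fun p hp => twistB hp⟩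
  rw [deltaB, ← dvd_of (a := 4) (b := 3) (c := 6) hp (by norm_num) (by norm_num) (by norm_num)]
  constructor
  · intro h; exact_mod_cast h
  · intro h; exact_mod_cast h

lemma jac_mul89 (a b : ℤ) : jacobiSym (a * b) 89 = jacobiSym a 89 * jacobiSym b 89 :=
  jacobiSym.mul_left a b 89

lemma jac_sq89 {p : ℕ} (hp : p.Prime) (h : p ≠ 89) : jacobiSym p 89 * jacobiSym p 89 = 1 := by
  have h1 : IsCoprime ((p : ℤ)) 89 := by
    have := (Nat.coprime_primes hp (by norm_num : Nat.Prime 89)).2 h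
    exact_mod_cast Nat.isCoprime_iff_coprime.2 this
  have h2 := jacobiSym.sq_one' (a := (p : ℤ)) (b := 89) (by
    exact_mod_cast Int.isCoprime_iff_gcd_eq_one.1 h1)
  rw [← jac_mul89, ← sq]
  exact h2

/-- the coefficients of the twist -/
theorem an_eq' {W : WeierstrassCurve ℤ} (hW : Good W) (n : ℕ) :
    an W n = jacobiSym n 89 * A n := by
  by_cases hn : n = 0
  · subst hn
    rw [A_zero, mul_zero]
    unfold an
    rw [if_pos rfl]
  refine hmult W (fun n => jacobiSym n 89 * A n) ?_ ?_ ?_ n (Nat.pos_of_ne_zero hn)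
  · rw [A_one, Nat.cast_one, jacobiSym.one_left, mul_one]
  · intro p hp
    rw [hW.tw p hp, A_eq hp]
  · intro p hp n hn
    have h1 := (hecke_f20 hp).2 n
    have h2 := hW.disc p hp
    have h3 : A (p * n) = A p * A n - (if p ∣ 20 then 0 else (p : ℤ)) *
      (if p ∣ n then A (n / p) else 0) := by linarith
    rw [Nat.cast_mul, jac_mul89, h3]
    by_cases h89 : p = 89
    · subst h89
      have h4 : jacobiSym ((89 : ℕ) : ℤ) 89 = 0 := by decide +kernel
      rw [h4, if_pos (h2.2 (Or.inr (Or.inr rfl)))]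
      simp
    · have hsq := jac_sq89 hp h89
      by_cases hd : (p : ℤ) ∣ W.Δ
      · rw [if_pos hd]
        have h20 : p ∣ 20 := by
          rcases h2.1 hd with h | h | h
          · rw [h]; norm_num
          · rw [h]; norm_num
          · exact absurd h h89
        rw [if_pos h20]
        push_cast
        ring
      · rw [if_neg hd]
        have h20 : ¬ p ∣ 20 := dvd_20 hp (fun h => hd (h2.2 (Or.inl h)))
          (fun h => hd (h2.2 (Or.inr (Or.inl h))))
        rw [if_neg h20]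
        by_cases hpn : p ∣ n
        · obtain ⟨m, rfl⟩ := hpn
          rw [if_pos (dvd_mul_right p m), if_pos (dvd_mul_right p m),
            Nat.mul_div_cancel_left _ hp.pos, Nat.cast_mul, jac_mul89]
          linear_combination (-(jacobiSym m 89 * p * A m)) * hsq
        · rw [if_neg hpn, if_neg hpn]
          ring

/-- the Gauss sum -/
noncomputable def tau : ℝ := Gauss.s_gauss.choose

lemma tau_sq : tau ^ 2 = 89 := Gauss.s_gauss.choose_spec.1

lemma tau_ne : (tau : ℂ) ≠ 0 := by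
  intro h
  have h1 : tau = 0 := by exact_mod_cast h
  have := tau_sq
  rw [h1] at this
  norm_num at this

theorem fE_eq' {W : WeierstrassCurve ℤ} (hW : Good W) {z : ℂ} (hz : 0 < z.im) :
    fE W (ofComplex z) =
    (∑ u ∈ Finset.range 89, (jacobiSym u 89 : ℂ) * gg (2 * (z + u / 89))) / tau := by
  have h1 := Gauss.s_gauss.choose_spec.2 A (fun z => gg (2 * z)) (fun z hz => by
    have := hasSum_A hz
    simp only [qq_pow_eq] at this
    exact this) z hz
  unfold fE
  rw [ofComplex_apply_of_im_pos hz]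
  have h2 : (fun n : ℕ => ((an W n : ℤ) : ℂ) * Complex.exp (2 * Real.pi * Complex.I * n * z)) =
      fun n : ℕ => ((jacobiSym n 89 * A n : ℤ) : ℂ) *
        Complex.exp (2 * Real.pi * Complex.I * n * z) := by
    ext n
    rw [an_eq' hW]
  change (∑' n : ℕ, ((an W n : ℤ) : ℂ) * Complex.exp (2 * Real.pi * Complex.I * n * z)) = _
  rw [h2]
  exact h1.tsum_eq

/-- the character sum of the integrals -/
noncomputable def S89 (x : ℚ) : ℂ :=
  ∑ u ∈ Finset.range 89, (jacobiSym u 89 : ℂ) * J (x + 2 * u / 89)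

lemma prim_fE' {W : WeierstrassCurve ℤ} (hW : Good W) (r : ℚ) :
    prim (fE W) (r : ℂ) = S89 (2 * r) / tau := by
  have h1 : Set.EqOn (fun t : ℝ => fE W (ofComplex ((r : ℂ) + t * Complex.I)))
      (fun t : ℝ => (∑ u ∈ Finset.range 89, (jacobiSym u 89 : ℂ) *
        f20 (ofComplex (((r + u / 89 : ℚ) : ℂ) + t * Complex.I))) / tau) (Set.Ioi 0) := by
    intro t ht
    have ht' : 0 < t := ht
    have him : 0 < ((r : ℂ) + t * Complex.I).im := by simpa using ht'
    dsimp only
    rw [fE_eq' hW him]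
    congr 1
    refine Finset.sum_congr rfl fun u _ => ?_
    have him2 : 0 < (((r + u / 89 : ℚ) : ℂ) + t * Complex.I).im := by simpa using ht'
    rw [f20_of him2]
    congr 2
    push_cast
    ring
  have h5 : (∫ t in Set.Ioi (0 : ℝ), ∑ u ∈ Finset.range 89, (jacobiSym u 89 : ℂ) *
        f20 (ofComplex (((r + u / 89 : ℚ) : ℂ) + t * Complex.I))) =
      ∑ u ∈ Finset.range 89, ∫ t in Set.Ioi (0 : ℝ), (jacobiSym u 89 : ℂ) *
        f20 (ofComplex (((r + u / 89 : ℚ) : ℂ) + t * Complex.I)) :=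
    integral_finsetSum _ (fun u _ => (int_f20 (r + u / 89)).const_mul _)
  unfold prim
  rw [setIntegral_congr_fun measurableSet_Ioi h1, integral_div, h5]
  have h2 : ∀ u : ℕ, ∫ t in Set.Ioi (0 : ℝ), (jacobiSym u 89 : ℂ) *
      f20 (ofComplex (((r + u / 89 : ℚ) : ℂ) + t * Complex.I)) =
      (jacobiSym u 89 : ℂ) * ∫ t in Set.Ioi (0 : ℝ),
        f20 (ofComplex (((r + u / 89 : ℚ) : ℂ) + t * Complex.I)) := fun u =>
    integral_const_mul _ _
  simp only [h2]
  unfold S89
  rw [← mul_div_assoc, Finset.mul_sum]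
  congr 1
  refine Finset.sum_congr rfl fun u _ => ?_
  have h3 := prim_f20 (r + u / 89)
  unfold prim at h3
  rw [mul_left_comm, h3]
  congr 2
  ring

lemma J_im_neg (x : ℚ) : (J (-x)).re = (J x).re := by
  rw [J_conj, Complex.conj_re]

end Pool.Agent.TH948.MT
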