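import Pool.Agent.H918R3.TB1
import Pool.Agent.TH948.MT.Defs

/-!
The rank of the two curves is at least two.
-/

set_option autoImplicit false

namespace Pool.Agent.TH948.MT

section Abs

variable {G K : Type} [AddCommGroup G] [Field K]

/-- a homomorphism to the classes modulo squares -/
structure Cls (δ : G → K) : Prop where
  ne : ∀ P, δ P ≠ 0
  zero : δ 0 = 1
  add : ∀ P Q, IsSquare (δ (P + Q) * (δ P * δ Q))

lemma Cls.iff {δ : G → K} (h : Cls δ) (P Q : G) : IsSquare (δ (P + Q)) ↔ IsSquare (δ P * δ Q) := by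
  have h1 := h.add P Q
  have h2 := h.ne (P + Q)
  have h3 := mul_ne_zero (h.ne P) (h.ne Q)
  constructor
  · intro h4
    have := h1.div h4
    rwa [mul_div_cancel_left₀ _ h2] at this
  · intro h4
    have := h1.div h4
    rwa [mul_div_cancel_right₀ _ h3] at this

lemma Cls.dbl {δ : G → K} (h : Cls δ) (P : G) : IsSquare (δ (P + P)) :=
  (h.iff P P).2 ⟨_, rfl⟩

/-- multiplying by a square -/
lemma sq_mul_iff {a b : K} (ha : a ≠ 0) (h : IsSquare a) : IsSquare (a * b) ↔ IsSquare b := by
  constructor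
  · intro h4
    have := h4.div h
    rwa [mul_div_cancel_left₀ _ ha] at this
  · intro h4
    exact h.mul h4

variable {δ η : G → K} {P Q T : G}

theorem indep_aux (hδ : Cls δ) (hη : Cls η) (hT : ∀ R : G, R + R = 0 → R = 0 ∨ R = T)
    (h1 : ¬ IsSquare (δ P)) (h2 : ¬ IsSquare (δ T)) (h3 : ¬ IsSquare (δ P * δ T))
    (h4 : IsSquare (δ Q)) (h5 : ¬ IsSquare (η Q)) (N : ℕ) :
    ∀ m n : ℤ, m.natAbs + n.natAbs = N → ∀ t : G, (t = 0 ∨ t = T) →
      m • P + n • Q + t = 0 → m = 0 ∧ n = 0 := by
  induction N using Nat.strong_induction_on with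
  | _ N ih =>
    intro m n hN t ht h
    have hQ0 : δ Q ≠ 0 := hδ.ne Q
    -- the remainders
    obtain ⟨m', e, hm, he⟩ : ∃ m' e : ℤ, m = 2 * m' + e ∧ (e = 0 ∨ e = 1) :=
      ⟨m / 2, m % 2, by omega, by omega⟩
    obtain ⟨n', f, hn, hf⟩ : ∃ n' f : ℤ, n = 2 * n' + f ∧ (f = 0 ∨ f = 1) :=
      ⟨n / 2, n % 2, by omega, by omega⟩
    set S := m' • P + n' • Q with hS
    have hrel : e • P + f • Q + t = -S + -S := by
      have h6 : m • P + n • Q + t = (e • P + f • Q + t) + (S + S) := by
        rw [hm, hn, hS, add_zsmul, add_zsmul, mul_zsmul, mul_zsmul, two_zsmul, two_zsmul]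
        abel
      rw [h6] at h
      rw [eq_neg_of_add_eq_zero_left h]
      abel
    have hd : IsSquare (δ (e • P + f • Q + t)) := by rw [hrel]; exact hδ.dbl _
    have hh : IsSquare (η (e • P + f • Q + t)) := by rw [hrel]; exact hη.dbl _
    have hkey : e = 0 ∧ f = 0 ∧ t = 0 := by
      rcases he with rfl | rfl <;> rcases hf with rfl | rfl <;> rcases ht with rfl | rfl
      · exact ⟨rfl, rfl, rfl⟩
      · exfalso
        apply h2
        simpa using hd
      · exfalso
        apply h5
        simpa using hh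
      · exfalso
        apply h2
        rw [zero_zsmul, one_zsmul, zero_add, hδ.iff, sq_mul_iff hQ0 h4] at hd
        exact hd
      · exfalso
        apply h1
        simpa using hd
      · exfalso
        apply h3
        rw [one_zsmul, zero_zsmul, add_zero, hδ.iff] at hd
        exact hd
      · exfalso
        apply h1
        rw [one_zsmul, one_zsmul, add_zero, hδ.iff, mul_comm, sq_mul_iff hQ0 h4] at hd
        exact hd
      · exfalso
        apply h3
        rw [one_zsmul, one_zsmul] at hd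
        have e1 : P + Q + t = Q + (P + t) := by abel
        rw [e1, hδ.iff, sq_mul_iff hQ0 h4, hδ.iff] at hd
        exact hd
    obtain ⟨rfl, rfl, rfl⟩ := hkey
    have h7 : S + S = 0 := by
      simp only [zero_zsmul, add_zero] at hrel
      have : S + S = -(-S + -S) := by abel
      rw [this, ← hrel, neg_zero]
    by_cases h0 : m = 0 ∧ n = 0
    · exact h0
    · have h8 : m'.natAbs + n'.natAbs < N := by omega
      have h9 : m' • P + n' • Q + S = 0 := by rw [← hS]; exact h7
      have h10 := ih _ h8 m' n' rfl S (hT S h7) h9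
      omega

theorem rank_two (hδ : Cls δ) (hη : Cls η) (hT : ∀ R : G, R + R = 0 → R = 0 ∨ R = T)
    (h1 : ¬ IsSquare (δ P)) (h2 : ¬ IsSquare (δ T)) (h3 : ¬ IsSquare (δ P * δ T))
    (h4 : IsSquare (δ Q)) (h5 : ¬ IsSquare (η Q)) : (2 : Cardinal) ≤ Module.rank ℤ G := by
  have hli : LinearIndependent ℤ ![P, Q] := by
    rw [Fintype.linearIndependent_iff]
    intro g hg
    rw [Fin.sum_univ_two] at hg
    simp only [Matrix.cons_val_zero, Matrix.cons_val_one] at hg
    have h6 := indep_aux hδ hη hT h1 h2 h3 h4 h5 _ (g 0) (g 1) rfl 0 (Or.inl rfl) (by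
      rw [add_zero]; exact hg)
    intro i
    fin_cases i
    · exact h6.1
    · exact h6.2
  have := hli.cardinal_le_rank
  simpa using this

end Abs

section Quad

/-- squares in the quadratic field -/
lemma isq {a : ℚ} {z : QuadraticAlgebra ℚ a 0} (h : IsSquare z) :
    ∃ c d : ℚ, z.re = c ^ 2 + a * d ^ 2 ∧ z.im = 2 * c * d := by
  obtain ⟨w, rfl⟩ := h
  refine ⟨w.re, w.im, ?_, ?_⟩
  · simp only [QuadraticAlgebra.re_mul]
    ring
  · simp only [QuadraticAlgebra.im_mul]
    ring

/-- rational squares in the quadratic field -/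
lemma isq_rat {a r : ℚ} {z : QuadraticAlgebra ℚ a 0} (h : IsSquare z) (h0 : z.im = 0)
    (hr : z.re = r) : IsSquare r ∨ ∃ d : ℚ, r = a * d ^ 2 := by
  obtain ⟨c, d, h1, h2⟩ := isq h
  rw [h0] at h2
  have h3 : c * d = 0 := by linarith
  rcases mul_eq_zero.1 h3 with h4 | h4
  · right
    refine ⟨d, ?_⟩
    rw [← hr, h1, h4]
    ring
  · left
    refine ⟨c, ?_⟩
    rw [← hr, h1, h4]
    ring

/-- a rational number is not a square -/
lemma not_sq {r : ℚ} (n : ℕ) (s : ℚ) (hs : r = n * s ^ 2) (hs0 : s ≠ 0) (hn : ¬ IsSquare n) :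
    ¬ IsSquare r := by
  rintro ⟨c, hc⟩
  apply hn
  rw [← Rat.isSquare_natCast_iff]
  refine ⟨c / s, ?_⟩
  have : (n : ℚ) * s ^ 2 = c * c := by rw [← hs]; exact hc
  field_simp
  linarith

end Quad

end Pool.Agent.TH948.MT
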