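import Pool.Agent.TH948.MT.Rk

/-!
The rank of the two curves is at least two.
-/

set_option autoImplicit false

namespace Pool.Agent.TH948.MT

open WeierstrassCurve Pool.Agent.H918R3

section Gen

variable {K : Type} [Field K] [DecidableEq K]

lemma dlW_add' {W : WeierstrassCurve K} {e f g : K} (h : W = crv e f g) (h2 : (2 : K) ≠ 0)
    (hef : e ≠ f) (heg : e ≠ g) (hfg : f ≠ g) (P Q : W.toAffine.Point) :
    IsSquare (TB1.dlW e f g (P + Q) * (TB1.dlW e f g P * TB1.dlW e f g Q)) := by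
  subst h
  have := (dl_add h2 (e1 := e) (e2 := f) (e3 := g) rfl hef heg hfg P Q).2
  simpa only [TB1.dl_eq] using this

/-- the embedding of `ℚ` -/
noncomputable def phi (K : Type) [Field K] [Algebra ℚ K] : ℚ →ₐ[ℤ] K := (algebraMap ℚ K).toIntAlgHom

/-- the embedding of the groups of points -/
noncomputable def toK (W : WeierstrassCurve ℤ) (K : Type) [Field K] [DecidableEq K] [Algebra ℚ K] :
    Pts W →+ (W.map (algebraMap ℤ K)).toAffine.Point :=
  (Affine.Point.map (W' := W) (phi K) : _ →+ _)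

lemma toK_some (W : WeierstrassCurve ℤ) (K : Type) [Field K] [DecidableEq K] [Algebra ℚ K]
    {x y : ℚ} (h : (W.map (Int.castRingHom ℚ)).toAffine.Nonsingular x y) :
    ∃ h', toK W K (Affine.Point.some x y h) =
      Affine.Point.some (algebraMap ℚ K x) (algebraMap ℚ K y) h' := ⟨_, rfl⟩

/-- the class of `x - e` -/
noncomputable def cl (W : WeierstrassCurve ℤ) (K : Type) [Field K] [DecidableEq K] [Algebra ℚ K]
    (e f g : K) (P : Pts W) : K :=
  TB1.dlW e f g (toK W K P)

variable [Algebra ℚ K]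

lemma cl_cls {W : WeierstrassCurve ℤ} {e f g : K} (h : W.map (algebraMap ℤ K) = crv e f g)
    (h2 : (2 : K) ≠ 0) (hef : e ≠ f) (heg : e ≠ g) (hfg : f ≠ g) : Cls (cl W K e f g) := by
  refine ⟨fun P => TB1.dlW_ne hef heg _, ?_, fun P Q => ?_⟩
  · unfold cl
    rw [map_zero]
    rfl
  · unfold cl
    rw [map_add]
    exact dlW_add' h h2 hef heg hfg _ _

lemma cl_some {W : WeierstrassCurve ℤ} {e f g : K} {x y : ℚ}
    (h : (W.map (Int.castRingHom ℚ)).toAffine.Nonsingular x y) (hx : algebraMap ℚ K x ≠ e) :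
    cl W K e f g (Affine.Point.some x y h) = algebraMap ℚ K x - e := by
  obtain ⟨h', e1⟩ := toK_some W K h
  unfold cl
  rw [e1, TB1.dlW_some, if_neg hx]

lemma cl_some_eq {W : WeierstrassCurve ℤ} {e f g : K} {x y : ℚ}
    (h : (W.map (Int.castRingHom ℚ)).toAffine.Nonsingular x y) (hx : algebraMap ℚ K x = e) :
    cl W K e f g (Affine.Point.some x y h) = (e - f) * (e - g) := by
  obtain ⟨h', e1⟩ := toK_some W K h
  unfold cl
  rw [e1, TB1.dlW_some, if_pos hx]

end Gen

section EqA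

lemma eqnA (x y : ℚ) : (EA.map (Int.castRingHom ℚ)).toAffine.Equation x y ↔
    y ^ 2 = x ^ 3 + 1958 * x ^ 2 + 990125 * x := by
  rw [WeierstrassCurve.Affine.equation_iff]
  have c1 : (EA.map (Int.castRingHom ℚ)).a₁ = 0 := by simp [EA]
  have c2 : (EA.map (Int.castRingHom ℚ)).a₂ = 1958 := by simp [EA]
  have c3 : (EA.map (Int.castRingHom ℚ)).a₃ = 0 := by simp [EA]
  have c4 : (EA.map (Int.castRingHom ℚ)).a₄ = 990125 := by simp [EA]
  have c6 : (EA.map (Int.castRingHom ℚ)).a₆ = 0 := by simp [EA]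
  rw [c1, c2, c3, c4, c6]
  constructor
  · intro h; linear_combination h
  · intro h; linear_combination h

lemma eqnB (x y : ℚ) : (EB.map (Int.castRingHom ℚ)).toAffine.Equation x y ↔
    y ^ 2 = x ^ 3 - 979 * x ^ 2 - 7921 * x := by
  rw [WeierstrassCurve.Affine.equation_iff]
  have c1 : (EB.map (Int.castRingHom ℚ)).a₁ = 0 := by simp [EB]
  have c2 : (EB.map (Int.castRingHom ℚ)).a₂ = -979 := by simp [EB]
  have c3 : (EB.map (Int.castRingHom ℚ)).a₃ = 0 := by simp [EB]
  have c4 : (EB.map (Int.castRingHom ℚ)).a₄ = -7921 := by simp [EB]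
  have c6 : (EB.map (Int.castRingHom ℚ)).a₆ = 0 := by simp [EB]
  rw [c1, c2, c3, c4, c6]
  constructor
  · intro h; linear_combination h
  · intro h; linear_combination h

lemma nsA {x y : ℚ} (h : y ^ 2 = x ^ 3 + 1958 * x ^ 2 + 990125 * x) (hy : y ≠ 0 ∨ x = 0) :
    (EA.map (Int.castRingHom ℚ)).toAffine.Nonsingular x y := by
  rw [Affine.nonsingular_iff']
  refine ⟨(eqnA x y).2 h, ?_⟩
  have c1 : (EA.map (Int.castRingHom ℚ)).a₁ = 0 := by simp [EA]
  have c2 : (EA.map (Int.castRingHom ℚ)).a₂ = 1958 := by simp [EA]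
  have c3 : (EA.map (Int.castRingHom ℚ)).a₃ = 0 := by simp [EA]
  have c4 : (EA.map (Int.castRingHom ℚ)).a₄ = 990125 := by simp [EA]
  rw [c1, c2, c3, c4]
  rcases hy with h1 | h1
  · right
    intro h2
    apply h1
    linarith
  · left
    rw [h1]
    norm_num

lemma nsB {x y : ℚ} (h : y ^ 2 = x ^ 3 - 979 * x ^ 2 - 7921 * x) (hy : y ≠ 0 ∨ x = 0) :
    (EB.map (Int.castRingHom ℚ)).toAffine.Nonsingular x y := by
  rw [Affine.nonsingular_iff']
  refine ⟨(eqnB x y).2 h, ?_⟩
  have c1 : (EB.map (Int.castRingHom ℚ)).a₁ = 0 := by simp [EB]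
  have c2 : (EB.map (Int.castRingHom ℚ)).a₂ = -979 := by simp [EB]
  have c3 : (EB.map (Int.castRingHom ℚ)).a₃ = 0 := by simp [EB]
  have c4 : (EB.map (Int.castRingHom ℚ)).a₄ = -7921 := by simp [EB]
  rw [c1, c2, c3, c4]
  rcases hy with h1 | h1
  · right
    intro h2
    apply h1
    linarith
  · left
    rw [h1]
    norm_num

/-- the points of order two -/
lemma two_tors {W : WeierstrassCurve ℤ} (h1 : W.a₁ = 0) (h3 : W.a₃ = 0)
    (T : Pts W) (hT : ∀ x y h, y = 0 → (Affine.Point.some x y h : Pts W) = T) (R : Pts W)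
    (hR : R + R = 0) : R = 0 ∨ R = T := by
  rcases R with _ | ⟨x, y, h⟩
  · left; rfl
  · right
    have h2 := eq_neg_of_add_eq_zero_left hR
    rw [Affine.Point.neg_some] at h2
    have h4 := (Affine.Point.some.inj h2).2
    have h5 : (W.map (Int.castRingHom ℚ)).toAffine.negY x y = -y := by
      simp [Affine.negY, h1, h3]
    rw [h5] at h4
    exact hT x y h (by linarith)

end EqA

end Pool.Agent.TH948.MT
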