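import Pool.Agent.TH948.MT.Ev

/-!
The values of the modular symbol at the multiples of `2 / 89`.
-/

set_option autoImplicit false

namespace Pool.Agent.TH948.MT

/-- the table of the values -/
def NT : List ℤ := [1, 1, 1, 1, 1, 1, 1, 7, 1, 1, 1, 1, 1, 1, 1, 1, 1, 1, 1, 1, 1, -5, 1, 1, 1, -5, 1, 1, 1, -5, -5, -5, -5, 1, -5, -5, 1, -5, 1, 1, 1, 1, 1, 1, 1, 1, 1, 1, 1, 1, 1, 1, -5, 1, -5, -5, 1, -5, -5, -5, -5, 1, 1, 1, -5, 1, 1, 1, -5, 1, 1, 1, 1, 1, 1, 1, 1, 1, 1, 1, 1, 1, 7, 1, 1, 1, 1, 1, 1]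

/-- the value at `2b/89` -/
def nb (b : ℕ) : ℤ := NT.getD b 0

/-- the quadratic character modulo `89` -/
def chi (u : ℕ) : ℤ := if u % 89 = 0 then 0 else if u ^ 44 % 89 = 1 then 1 else -1

/-- the discrete logarithms to the base `3` modulo `89` -/
def LT : List ℕ := [0, 0, 16, 1, 32, 70, 17, 81, 48, 2, 86, 84, 33, 23, 9, 71, 64, 6, 18, 35, 14, 82, 12, 57, 49, 52, 39, 3, 25, 59, 87, 31, 80, 85, 22, 63, 34, 11, 51, 24, 30, 21, 10, 29, 28, 72, 73, 54, 65, 74, 68, 7, 55, 78, 19, 66, 41, 36, 75, 43, 15, 69, 47, 83, 8, 5, 13, 56, 38, 58, 79, 62, 50, 20, 27, 53, 67, 77, 40, 42, 46, 4, 37, 61, 26, 76, 45, 60, 44]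

/-- the discrete logarithm -/
def lg (a : ℕ) : ℕ := LT.getD a 0

theorem nb_ev : ∀ b ∈ Finset.range 89, ev 60 (2 * (b : ℤ)) 89 = some (nb b) := by decide +kernel

theorem chi_jac : ∀ u ∈ Finset.range 89, jacobiSym (u : ℤ) 89 = chi u := by decide +kernel

theorem lg_pow : ∀ a ∈ Finset.Icc 1 88, 3 ^ lg a % 89 = a := by decide +kernel

theorem lg_lt : ∀ a ∈ Finset.range 89, lg a < 88 := by decide +kernel

/-- the character sum -/
def MM (a : ℕ) : ℤ := ∑ u ∈ Finset.range 89, chi u * nb ((a + u) % 89)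

theorem MM_sum : (∑ a ∈ Finset.Icc 1 88, (lg a : ℤ) * MM a) % 16 = 8 := by decide +kernel

end Pool.Agent.TH948.MT
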