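import Pool.Agent.TH948.MT.Prim
import Pool.Agent.TH948.MT.Par
import Pool.Agent.TH948.MT.Tab

/-!
The modular symbols of the twists by `89` are integers.
-/

set_option autoImplicit false

open UpperHalfPlane MatrixGroups CongruenceSubgroup Filter Topology MeasureTheory
open scoped ModularForm Pointwise

namespace Pool.Agent.TH948.MT

open Pool.Agent.W97.V20
open Pool.Agent.W97.MT (ap prim qq)

/-- the value at `x` -/
noncomputable def nn (x : ℚ) : ℤ := (hdesc PP closed x).choose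

lemma nn_PP (x : ℚ) : PP x (nn x) := (hdesc PP closed x).choose_spec.1

lemma nn_re (x : ℚ) : (J x).re = nn x * J0 := (nn_PP x).re

lemma nn_unique {x : ℚ} {n : ℤ} (h : PP x n) : n = nn x := by
  have h1 := h.re
  rw [nn_re] at h1
  have h2 := J0_pos
  have h3 : ((nn x : ℝ) - n) * J0 = 0 := by linarith
  rcases mul_eq_zero.1 h3 with h4 | h4
  · have h5 : (nn x : ℝ) = n := by linarith
    exact_mod_cast h5.symm
  · exact absurd h4 h2.ne'

lemma nn_JJ (x : ℚ) : JJ PP x.num x.den (nn x) := by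
  obtain ⟨n, hn⟩ := desc5 closed x
  have h1 := hn.p
  have e : ((x.num : ℤ) : ℚ) / ((x.den : ℤ) : ℚ) = x := by
    push_cast
    exact Rat.num_div_den x
  rw [e] at h1
  rw [nn_unique h1] at hn
  exact hn

/-- the parity does not change under multiplication by `89` -/
lemma nn_89 (x : ℚ) : (nn (89 * x)) % 2 = nn x % 2 := by
  have h1 := nn_JJ x
  have h2 := nn_JJ (89 * x)
  obtain ⟨-, i1, v1⟩ := h1
  obtain ⟨-, i2, v2⟩ := h2
  have hx : x = (x.num : ℚ) / (x.den : ℚ) := (Rat.num_div_den x).symm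
  have hc : (x.den : ℤ) ≠ 0 := by exact_mod_cast x.den_nz
  have hcop := Rat.isCoprime_num_den x
  have hcop2 := Rat.isCoprime_num_den (89 * x)
  set a := x.num with ha
  set c : ℤ := (x.den : ℤ) with hcd
  have hcpos : 0 < c := by
    rw [hcd]; exact_mod_cast x.den_pos
  set a' := (89 * x).num with ha'
  set c' : ℤ := ((89 * x).den : ℤ) with hcd'
  have hc'pos : 0 < c' := by
    rw [hcd']; exact_mod_cast (89 * x).den_pos
  -- the relation between the reduced fractions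
  have hrel : a' * c = 89 * a * c' := by
    have e1 : (a' : ℚ) = 89 * x * c' := by
      rw [ha', hcd']
      push_cast
      exact (Rat.mul_den_eq_num (89 * x)).symm
    have e2 : (a : ℚ) = x * c := by
      rw [ha, hcd]
      push_cast
      exact (Rat.mul_den_eq_num x).symm
    have : (a' : ℚ) * c = 89 * a * c' := by rw [e1, e2]; ring
    exact_mod_cast this
  have hcases : (a' = 89 * a ∧ c' = c) ∨ (a' = a ∧ c = 89 * c') := by
    by_cases h89 : (89 : ℤ) ∣ c
    · right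
      obtain ⟨c1, hc1⟩ := h89
      have hc1pos : 0 < c1 := by omega
      have h3 : a' * c1 = a * c' := by
        have : 89 * (a' * c1) = 89 * (a * c') := by
          rw [hc1] at hrel
          linarith
        omega
      have hcop1 : IsCoprime a c1 := by
        rw [hc1] at hcop
        exact hcop.of_mul_right_right
      have d1 : c1 ∣ c' := by
        have : c1 ∣ a * c' := ⟨a', by rw [← h3]; ring⟩
        exact hcop1.symm.dvd_of_dvd_mul_left this
      have d2 : c' ∣ c1 := by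
        have : c' ∣ a' * c1 := ⟨a, by rw [h3]; ring⟩
        exact hcop2.symm.dvd_of_dvd_mul_left this
      have h4 : c1 = c' := Int.dvd_antisymm hc1pos.le hc'pos.le d1 d2
      refine ⟨?_, by rw [hc1, h4]⟩
      rw [h4] at h3
      exact mul_right_cancel₀ hc'pos.ne' h3
    · left
      have h89p : Prime (89 : ℤ) := by
        have : Nat.Prime 89 := by norm_num
        exact_mod_cast Nat.prime_iff_prime_int.1 this
      have hcop1 : IsCoprime (89 * a) c := by
        refine IsCoprime.mul_left ?_ hcop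
        exact (Prime.coprime_iff_not_dvd h89p).2 h89
      have d1 : c ∣ c' := by
        have : c ∣ 89 * a * c' := ⟨a', by rw [← hrel]; ring⟩
        exact hcop1.symm.dvd_of_dvd_mul_left this
      have d2 : c' ∣ c := by
        have : c' ∣ a' * c := ⟨89 * a, by rw [hrel]; ring⟩
        exact hcop2.symm.dvd_of_dvd_mul_left this
      have h4 : c' = c := Int.dvd_antisymm hc'pos.le hcpos.le d2 d1
      refine ⟨?_, h4⟩
      rw [h4] at hrel
      exact mul_right_cancel₀ hc hrel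
  rcases hcases with ⟨e1, e2⟩ | ⟨e1, e2⟩
  · by_cases h5 : c % 5 = 0
    · have k1 := v1 h5
      have k2 := v2 (by rw [e2]; exact h5)
      rw [e1] at k2
      omega
    · have k1 := i1 h5
      have k2 := i2 (by rw [e2]; exact h5)
      rw [e2] at k2
      omega
  · by_cases h5 : c' % 5 = 0
    · have k2 := v2 h5
      have k1 := v1 (by omega)
      rw [e1] at k2
      omega
    · have k2 := i2 h5
      have k1 := i1 (by omega)
      omega

lemma nn_add_two (x : ℚ) : nn (x + 2) = nn x := by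
  have h1 := nn_re (x + 2)
  rw [J_add_two, nn_re] at h1
  have h3 := mul_right_cancel₀ J0_pos.ne' h1
  exact_mod_cast h3.symm

/-- the Hecke relation at `89` -/
lemma hecke89 (r : ℚ) : A 89 * nn (89 * (2 * r)) = nn (89 * (89 * (2 * r))) +
    ∑ b ∈ Finset.range 89, nn (2 * r + 2 * b / 89) := by
  have hp : Nat.Prime 89 := by norm_num
  have h1 := hhint 20 89 f20 (A 89 : ℂ) hp int_f20 (hecke_f20 hp).1 (89 * r)
  rw [if_neg (by norm_num), prim_f20] at h1
  have h2 : prim f20 (((((89 : ℕ) : ℚ) * (89 * r) : ℚ)) : ℂ) = J (2 * (89 * (89 * r))) := by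
    rw [prim_f20]
    norm_num
  have h3 : ∀ b ∈ Finset.range 89, prim f20 (((89 * r + b) / (89 : ℕ) : ℚ) : ℂ) =
      J (2 * r + 2 * b / 89) := by
    intro b _
    rw [prim_f20]
    congr 1
    push_cast
    field_simp
  rw [h2, Finset.sum_congr rfl h3] at h1
  have h4 := congrArg Complex.re h1
  rw [Complex.add_re, Complex.re_sum] at h4
  simp only [nn_re] at h4
  have h5 : ((A 89 : ℂ) * J (2 * (89 * r))).re = A 89 * (nn (2 * (89 * r)) * J0) := by
    rw [← nn_re, ← Complex.ofReal_intCast, Complex.re_ofReal_mul]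
  rw [h5, ← Finset.sum_mul] at h4
  have h6 : ((A 89 : ℝ) * nn (2 * (89 * r))) * J0 =
      ((nn (2 * (89 * (89 * r))) : ℝ) + ∑ b ∈ Finset.range 89, (nn (2 * r + 2 * b / 89) : ℝ)) * J0 := by
    rw [add_mul, ← h4]
    ring
  have h7 := mul_right_cancel₀ J0_pos.ne' h6
  have e1 : 89 * (2 * r) = 2 * (89 * r) := by ring
  have e2 : 89 * (89 * (2 * r)) = 2 * (89 * (89 * r)) := by ring
  rw [e2, e1]
  exact_mod_cast h7

/-- the character sum of the values -/
noncomputable def ss (x : ℚ) : ℤ := ∑ u ∈ Finset.range 89, jacobiSym u 89 * nn (x + 2 * u / 89)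

lemma S89_re (x : ℚ) : (S89 x).re = ss x * J0 := by
  unfold S89 ss
  rw [Complex.re_sum]
  push_cast
  rw [Finset.sum_mul]
  refine Finset.sum_congr rfl fun u _ => ?_
  rw [← Complex.ofReal_intCast, Complex.re_ofReal_mul, nn_re]
  ring

lemma jac_odd : ∀ u ∈ Finset.Ico (1 : ℕ) 89, jacobiSym (u : ℤ) 89 % 2 = 1 := by decide +kernel

lemma jac_z : jacobiSym ((0 : ℕ) : ℤ) 89 = 0 := by decide +kernel

/-- the character sums are even -/
theorem ss_even (r : ℚ) : ss (2 * r) % 2 = 0 := by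
  have h1 := hecke89 r
  have h2 : (2 : ℤ) ∣ A 89 := (A_mod (by norm_num) (by norm_num) (by norm_num)).1
  have h3 := nn_89 (89 * (2 * r))
  rw [nn_89 (2 * r)] at h3
  have h4 : ss (2 * r) = ∑ u ∈ Finset.Ico (1 : ℕ) 89,
      jacobiSym u 89 * nn (2 * r + 2 * (u : ℚ) / 89) := by
    unfold ss
    rw [Finset.range_eq_Ico, Finset.sum_eq_sum_Ico_succ_bot (by norm_num), jac_z, zero_mul,
      zero_add]
  have h5 : ∑ b ∈ Finset.range 89, nn (2 * r + 2 * b / 89) = nn (2 * r) +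
      ∑ u ∈ Finset.Ico (1 : ℕ) 89, nn (2 * r + 2 * (u : ℚ) / 89) := by
    rw [Finset.range_eq_Ico, Finset.sum_eq_sum_Ico_succ_bot (by norm_num)]
    have e0 : 2 * r + 2 * ((0 : ℕ) : ℚ) / 89 = 2 * r := by
      push_cast
      ring
    rw [e0]
  have h6 : (2 : ℤ) ∣ (∑ u ∈ Finset.Ico (1 : ℕ) 89, jacobiSym u 89 *
      nn (2 * r + 2 * (u : ℚ) / 89)) - ∑ u ∈ Finset.Ico (1 : ℕ) 89, nn (2 * r + 2 * (u : ℚ) / 89) := by
    rw [← Finset.sum_sub_distrib]
    refine Finset.dvd_sum fun u hu => ?_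
    have h7 := jac_odd u hu
    have h8 : jacobiSym (u : ℤ) 89 * nn (2 * r + 2 * (u : ℚ) / 89) - nn (2 * r + 2 * (u : ℚ) / 89) =
        (jacobiSym (u : ℤ) 89 - 1) * nn (2 * r + 2 * (u : ℚ) / 89) := by ring
    rw [h8]
    exact Dvd.dvd.mul_right (by omega) _
  rw [h5] at h1
  rw [h4]
  obtain ⟨k, hk⟩ := h2
  rw [hk] at h1
  have h9 : (2 * k * nn (89 * (2 * r))) = 2 * (k * nn (89 * (2 * r))) := by ring
  rw [h9] at h1
  set Q1 := ∑ u ∈ Finset.Ico (1 : ℕ) 89, jacobiSym u 89 * nn (2 * r + 2 * (u : ℚ) / 89) with hQ1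
  set Q2 := ∑ u ∈ Finset.Ico (1 : ℕ) 89, nn (2 * r + 2 * (u : ℚ) / 89) with hQ2
  omega

lemma jac_refl89 : ∀ u ∈ Finset.Icc (1 : ℕ) 88,
    jacobiSym ((89 - u : ℕ) : ℤ) 89 = jacobiSym u 89 := by
  decide +kernel

lemma S89_eq (x : ℚ) : S89 x = ∑ u ∈ Finset.Icc (1 : ℕ) 88, (jacobiSym u 89 : ℂ) *
    J (x + 2 * u / 89) := by
  unfold S89
  rw [Finset.range_eq_Ico, Finset.sum_eq_sum_Ico_succ_bot (by norm_num)]
  rw [jac_z, Int.cast_zero, zero_mul, zero_add]
  rfl

lemma S89_conj (x : ℚ) : S89 (-x) = starRingEnd ℂ (S89 x) := by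
  rw [S89_eq, S89_eq, map_sum]
  refine Finset.sum_nbij' (fun u => 89 - u) (fun u => 89 - u) ?_ ?_ ?_ ?_ ?_
  · intro u hu
    rw [Finset.mem_Icc] at hu ⊢
    omega
  · intro u hu
    rw [Finset.mem_Icc] at hu ⊢
    omega
  · intro u hu
    rw [Finset.mem_Icc] at hu
    omega
  · intro u hu
    rw [Finset.mem_Icc] at hu
    omega
  · intro u hu
    have h1 := jac_refl89 u hu
    rw [Finset.mem_Icc] at hu
    rw [h1, map_mul, ← J_conj]
    have h2 : (starRingEnd ℂ) ((jacobiSym u 89 : ℤ) : ℂ) = ((jacobiSym u 89 : ℤ) : ℂ) :=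
      map_intCast (starRingEnd ℂ) _
    rw [h2]
    congr 1
    rw [← J_add_two (-(x + 2 * ((89 - u : ℕ) : ℚ) / 89))]
    congr 1
    rw [Nat.cast_sub (by omega)]
    push_cast
    ring

lemma sqrt89_pos : 0 < Real.sqrt 89 := Real.sqrt_pos.2 (by norm_num)

/-- the sign of the Gauss sum -/
lemma exists_sign' : ∃ ε : ℤ, (ε = 1 ∨ ε = -1) ∧ Real.sqrt 89 = ε * tau := by
  have h1 : Real.sqrt 89 ^ 2 = tau ^ 2 := by rw [tau_sq, Real.sq_sqrt (by norm_num)]
  rcases sq_eq_sq_iff_eq_or_eq_neg.1 h1 with h | h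
  · exact ⟨1, Or.inl rfl, by rw [h]; simp⟩
  · exact ⟨-1, Or.inr rfl, by rw [h]; simp⟩

/-- the modular symbols -/
theorem sym_eq {W : WeierstrassCurve ℤ} (hW : Good W) {κ : ℚ}
    (hκ : OmP κ W = 2 / Real.sqrt 89 * J0) {ε : ℤ} (hε : Real.sqrt 89 = ε * tau) (r : ℚ) :
    2 * sym κ W r = ((ε * ss (2 * r) : ℤ) : ℂ) := by
  unfold sym
  rw [prim_fE' hW, prim_fE' hW, mul_neg, S89_conj, hκ]
  have h3 : S89 (2 * r) + starRingEnd ℂ (S89 (2 * r)) = ((2 * (S89 (2 * r)).re : ℝ) : ℂ) := by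
    rw [Complex.add_conj]
  have hτ := tau_ne
  have hJ : (J0 : ℂ) ≠ 0 := by exact_mod_cast J0_pos.ne'
  have hs : ((Real.sqrt 89 : ℝ) : ℂ) ≠ 0 := by exact_mod_cast sqrt89_pos.ne'
  have hεC : ((Real.sqrt 89 : ℝ) : ℂ) = ε * tau := by rw [hε]; push_cast; rfl
  rw [← add_div, h3, S89_re]
  push_cast
  rw [hεC] at hs ⊢
  have hε0 : (ε : ℂ) ≠ 0 := left_ne_zero_of_mul hs
  field_simp

/-- the symbols are integers -/
theorem sym_int {W : WeierstrassCurve ℤ} (hW : Good W) {κ : ℚ}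
    (hκ : OmP κ W = 2 / Real.sqrt 89 * J0) {ε : ℤ} (hε : Real.sqrt 89 = ε * tau) (r : ℚ) :
    sym κ W r = ((ε * (ss (2 * r) / 2) : ℤ) : ℂ) := by
  have h1 := sym_eq hW hκ hε r
  have h2 := ss_even r
  have h3 : ss (2 * r) = 2 * (ss (2 * r) / 2) := by omega
  have h4 : ((ε * ss (2 * r) : ℤ) : ℂ) = 2 * ((ε * (ss (2 * r) / 2) : ℤ) : ℂ) := by
    conv_lhs => rw [h3]
    push_cast
    ring
  rw [h4] at h1
  exact mul_left_cancel₀ two_ne_zero h1

/-- the values at `b / 89` -/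
lemma nn_tab (b : ℕ) : nn (2 * b / 89) = nb (b % 89) := by
  have h1 : b % 89 ∈ Finset.range 89 := Finset.mem_range.2 (Nat.mod_lt _ (by norm_num))
  have h2 := ev_spec closed 60 _ _ _ (by norm_num) (nb_ev _ h1)
  have h3 := nn_unique h2
  have h4 : ∀ k : ℕ, ∀ x : ℚ, nn (x + 2 * k) = nn x := by
    intro k
    induction k with
    | zero => intro x; simp
    | succ k ih =>
      intro x
      have e : x + 2 * ((k + 1 : ℕ) : ℚ) = (x + 2 * k) + 2 := by push_cast; ring
      rw [e, nn_add_two, ih]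
  rw [h3]
  have e : (2 * (b : ℚ) / 89) = (((2 * ((b % 89 : ℕ) : ℤ) : ℤ)) : ℚ) / ((89 : ℤ) : ℚ) +
      2 * ((b / 89 : ℕ) : ℚ) := by
    have h5 : (b : ℚ) = ((b % 89 : ℕ) : ℚ) + 89 * ((b / 89 : ℕ) : ℚ) := by
      exact_mod_cast (Nat.mod_add_div b 89).symm
    have h6 : (((2 * ((b % 89 : ℕ) : ℤ) : ℤ)) : ℚ) = 2 * ((b % 89 : ℕ) : ℚ) := by
      rw [Int.cast_mul, Int.cast_natCast]
      norm_num
    rw [h6, Int.cast_ofNat]
    linear_combination (2 / 89) * h5
  rw [e, h4]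

/-- the character sums at `a / 89` -/
theorem ss_tab (a : ℕ) : ss (2 * (a / 89)) = MM a := by
  unfold ss MM
  refine Finset.sum_congr rfl fun u hu => ?_
  rw [chi_jac u hu]
  congr 1
  have e : (2 * ((a : ℚ) / 89) + 2 * u / 89) = 2 * ((a + u : ℕ) : ℚ) / 89 := by
    push_cast
    ring
  rw [e, nn_tab]

end Pool.Agent.TH948.MT
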